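import Pool.Agent.H99.FRT.TwoG

/-!
# Two times of one line, general form: the assembly

`two_time_gen`: given any side information, the position at the own time has at most the entropy of
the position at a second time of the same window, if the second time is nearly uniform given the
line, the first time and the side information.
-/

set_option autoImplicit false

namespace Pool.TWG

open Finset Real
open Pool.Agent.H49.Ent Pool.Agent.H32.Dense Pool.STK Pool.KA
open Pool.TWO (cond_full fl_split floor_two floor_same law_cond')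

variable {m J : ℕ}

theorem sg_mem (F : Fam m J) (w k : ℕ) (τ : F.Ω → Fin (2 ^ (J - w))) (v : F.Ω) :
    sg F w k τ v ∈ ({0, 1, -1} : Finset ℤ) := by
  unfold sg
  split_ifs <;> simp

theorem log_k (k : ℕ) : Real.log (2 * 2 ^ k + 1) ≤ (k + 2) * Real.log 2 := by
  have h1 : (1 : ℝ) ≤ 2 ^ k := one_le_pow₀ (by norm_num)
  calc Real.log (2 * 2 ^ k + 1) ≤ Real.log (2 ^ (k + 2)) := by
        apply Real.log_le_log (by positivity)
        rw [pow_add]
        linarith
    _ = (k + 2) * Real.log 2 := by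
        rw [Real.log_pow]
        push_cast
        ring

/-- The second time is uniform on the parts. -/
theorem part (F : Fam m J) (w k : ℕ) {κ : Type} (K : F.Ω → κ)
    (τ : F.Ω → Fin (2 ^ (J - w))) (j : ℤ) {e : ℝ}
    (hf : ((J - w : ℕ) : ℝ) * Real.log 2 - e ≤
      CH F.p τ (fun ω => (F.l ω, (K ω, F.W ω)))) (h0 : 0 < law F.p (sg F w k τ) j) :
    law F.p (sg F w k τ) j * (((J - w : ℕ) : ℝ) * Real.log 2 -
      CH (cond F.p (sg F w k τ) j) τ (fun ω => (F.l ω, (K ω, F.W ω)))) ≤ e + Real.log 3 := by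
  have hmax : ∀ q' : F.Ω → ℝ, IsLaw q' →
      CH q' τ (fun ω => (F.l ω, (K ω, F.W ω))) ≤ ((J - w : ℕ) : ℝ) * Real.log 2 := by
    intro q' hq'
    refine (CH_le_card hq'.nonneg hq'.sum_one τ (fun ω => (F.l ω, (K ω, F.W ω)))
      (fun _ => univ) (fun _ _ => Finset.mem_univ _)).trans (le_of_eq ?_)
    rw [Ex_const hq'.sum_one, Finset.card_univ, Fintype.card_fin]
    push_cast
    rw [Real.log_pow]
  have hsg : CH F.p (sg F w k τ) (fun ω => (F.l ω, (K ω, F.W ω))) ≤ Real.log 3 := by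
    refine (CH_le_card F.isLaw.nonneg F.isLaw.sum_one (sg F w k τ) _
      (fun _ => ({0, 1, -1} : Finset ℤ)) (fun v _ => sg_mem F w k τ v)).trans (le_of_eq ?_)
    rw [Ex_const F.isLaw.sum_one]
    congr 1
  exact cond_full F.isLaw h0 hf hsg (fun b hb => hmax _ (law_cond' F.isLaw _ hb))

/-- The time of the new family is uniform given the line. -/
theorem prj_tm (F : Fam m J) {w k : ℕ} (hk : k ≤ J - w) {κ : Type} (K : F.Ω → κ)
    (τ : F.Ω → Fin (2 ^ (J - w))) {j : ℤ} (hl : IsLaw (cond F.p (sg F w k τ) j)) (hj : j ≠ 0)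
    {π₀ θ e : ℝ} (hf : ((J - w : ℕ) : ℝ) * Real.log 2 - e ≤
      CH F.p τ (fun ω => (F.l ω, (K ω, F.W ω))))
    (hπ : 0 < π₀) (hπl : π₀ ≤ law F.p (sg F w k τ) j)
    (hN : (e + Real.log 3) / π₀ + Real.log (2 * 2 ^ k + 1) ≤ θ * ((J - w : ℕ) : ℝ)) :
    (prj F w k hk K τ j hl).Tm (θ * ((J - w : ℕ) : ℝ)) := by
  have hU0 := F.isLaw.nonneg
  obtain ⟨q, hq⟩ : ∃ q, q = cond F.p (sg F w k τ) j := ⟨_, rfl⟩
  have hql : IsLaw q := by rw [hq]; exact hl
  have hq0 := hql.nonneg
  have hqs : ∀ v, 0 < q v → sg F w k τ v = j := fun v hv => by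
    rw [hq] at hv
    exact ((cond_pos_iff hU0 _ _ v).1 hv).2
  have hmax : CH q τ (fun ω => (F.l ω, (K ω, F.W ω))) ≤ ((J - w : ℕ) : ℝ) * Real.log 2 := by
    refine (CH_le_card hql.nonneg hql.sum_one τ (fun ω => (F.l ω, (K ω, F.W ω)))
      (fun _ => univ) (fun _ _ => Finset.mem_univ _)).trans (le_of_eq ?_)
    rw [Ex_const hql.sum_one, Finset.card_univ, Fintype.card_fin]
    push_cast
    rw [Real.log_pow]
  have s1 : π₀ * (((J - w : ℕ) : ℝ) * Real.log 2 - CH q τ (fun ω => (F.l ω, (K ω, F.W ω)))) ≤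
      e + Real.log 3 := by
    have h1 := part F w k K τ j hf (lt_of_lt_of_le hπ hπl)
    rw [← hq] at h1
    exact (mul_le_mul_of_nonneg_right hπl (sub_nonneg.2 hmax)).trans h1
  -- the new time
  have s2 : CH q τ (fun ω => (F.l ω, (K ω, F.W ω))) ≤
      CH q (nt F w k τ) (fun ω => (F.l ω, (K ω, F.W ω))) + Real.log (2 * 2 ^ k + 1) := by
    have t0 : CH q τ (fun ω => (F.l ω, (K ω, F.W ω))) =
        CH q (fun v => ((τ v : ℕ) : ℤ)) (fun ω => (F.l ω, (K ω, F.W ω))) := by
      refine CH_congr hq0 ?_ ?_ (fun _ _ _ _ h => h) (fun _ _ _ _ h => h)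
      · intro v v' _ _ e
        have e1 := (Prod.ext_iff.1 e).1
        simp only at e1
        simp only [e1]
      · intro v v' _ _ e
        have e1 : ((τ v : ℕ) : ℤ) = ((τ v' : ℕ) : ℤ) := (Prod.ext_iff.1 e).1
        exact Fin.ext (by exact_mod_cast e1)
    rw [t0]
    have t1 := CH_le_add hq0 (fun v : F.Ω => ((τ v : ℕ) : ℤ)) (nt F w k τ)
      (fun ω => (F.l ω, (K ω, F.W ω)))
    have t2 : CH q (fun v => ((τ v : ℕ) : ℤ))
        (fun v => (nt F w k τ v, (F.l v, (K v, F.W v)))) ≤ Real.log (2 * 2 ^ k + 1) := by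
      refine (CH_le_int hq0 hql.sum_one _ _ (fun _ => 2 ^ k) ?_).trans (le_of_eq ?_)
      · intro v v' hv hv' e
        have e1 := Prod.ext_iff.1 e
        have e2 : F.T v = F.T v' := by
          have e3 := (Prod.ext_iff.1 (Prod.ext_iff.1 e1.2).2).2
          exact (Prod.ext_iff.1 e3).1
        have e5 := nt_near F hk hj (hqs v hv) (hqs v' hv') e1.1
        have e6 : ((τ v : ℕ) : ℤ) - ((τ v' : ℕ) : ℤ) = rr F w τ v - rr F w τ v' := by
          rw [rr_eq, rr_eq, e2]
          ring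
        rw [e6]
        exact e5
      · rw [Ex_const hql.sum_one]
    linarith
  -- the line is a function of the old line and of the own time
  have s3 : CH q (nt F w k τ) (fun ω => (F.l ω, (K ω, F.W ω))) ≤
      CH q (prj F w k hk K τ j hl).T
        (fun v => ((prj F w k hk K τ j hl).l v, (prj F w k hk K τ j hl).Z v)) := by
    refine CH_mono_cond hq0 fun v v' _ _ e => ?_
    have e1 := Prod.ext_iff.1 e
    have e2 : F.l v = F.l v' := e1.1
    have e3 : (K v, F.W v) = (K v', F.W v') := e1.2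
    have e4 : F.u v = F.u v' := (Prod.ext_iff.1 e2).1
    have e5 : F.d v = F.d v' := (Prod.ext_iff.1 e2).2
    have e6 : F.T v = F.T v' := (Prod.ext_iff.1 (Prod.ext_iff.1 e3).2).1
    have e7 : F.x v = F.x v' := by
      funext i
      unfold Fam.x Fam.t
      rw [e4, e5, e6]
    have e8 : (prj F w k hk K τ j hl).l v = (prj F w k hk K τ j hl).l v' := by
      change ((fun i => (j : ℝ) * F.d v i / 2 ^ k), (fun i => Int.fract (2 ^ w * F.x v i))) =
        ((fun i => (j : ℝ) * F.d v' i / 2 ^ k), (fun i => Int.fract (2 ^ w * F.x v' i)))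
      rw [e5, e7]
    have e9 : (prj F w k hk K τ j hl).Z v = (prj F w k hk K τ j hl).Z v' := by
      change ((K v, F.W v), fl w (F.x v)) = ((K v', F.W v'), fl w (F.x v'))
      rw [e3, e7]
    rw [e8, e9]
  have h3 : ((J - w : ℕ) : ℝ) * Real.log 2 - CH q τ (fun ω => (F.l ω, (K ω, F.W ω))) ≤
      (e + Real.log 3) / π₀ := by
    rw [le_div_iff₀ hπ]
    linarith
  have h4 : ((J - w : ℕ) : ℝ) * Real.log 2 - θ * ((J - w : ℕ) : ℝ) ≤
      CH q (prj F w k hk K τ j hl).T
        (fun v => ((prj F w k hk K τ j hl).l v, (prj F w k hk K τ j hl).Z v)) := by linarith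
  rw [hq] at h4
  exact h4

/-- The difference of the times is small with small probability. -/
theorem sg_zero (F : Fam m J) {w k : ℕ} (hk : k ≤ J - w) {κ : Type} (K : F.Ω → κ)
    (τ : F.Ω → Fin (2 ^ (J - w))) {e : ℝ} (he : 0 ≤ e)
    (hf : ((J - w : ℕ) : ℝ) * Real.log 2 - e ≤ CH F.p τ (fun ω => (F.l ω, (K ω, F.W ω)))) :
    law F.p (sg F w k τ) 0 * (k * Real.log 2 - 3 * Real.log 2) ≤ e + Real.log 3 := by
  have hl3 : 0 ≤ Real.log 3 := Real.log_nonneg (by norm_num)
  rcases (law_nonneg F.isLaw.nonneg (sg F w k τ) 0).eq_or_lt with h0 | h0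
  · rw [← h0, zero_mul]
    linarith
  · have h1 := part F w k K τ 0 hf h0
    refine le_trans (mul_le_mul_of_nonneg_left ?_ h0.le) h1
    obtain ⟨q, hq⟩ : ∃ q, q = cond F.p (sg F w k τ) 0 := ⟨_, rfl⟩
    have hql : IsLaw q := by rw [hq]; exact law_cond' F.isLaw _ h0
    have hq0 := hql.nonneg
    have hqs : ∀ v, 0 < q v → sg F w k τ v = 0 := fun v hv => by
      rw [hq] at hv
      exact ((cond_pos_iff F.isLaw.nonneg _ _ v).1 hv).2
    rw [← hq]
    have hr : ∀ v, 0 < q v → |rr F w τ v| ≤ 2 ^ (J - w - k) := by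
      intro v hv
      have h2 := hqs v hv
      unfold sg at h2
      rw [abs_le]
      split_ifs at h2 with h4 h5
      · exact absurd h2 one_ne_zero
      · constructor <;> linarith
    have t0 : CH q τ (fun ω => (F.l ω, (K ω, F.W ω))) =
        CH q (fun v => ((τ v : ℕ) : ℤ)) (fun ω => (F.l ω, (K ω, F.W ω))) := by
      refine CH_congr hq0 ?_ ?_ (fun _ _ _ _ h => h) (fun _ _ _ _ h => h)
      · intro v v' _ _ e
        have e1 := (Prod.ext_iff.1 e).1
        simp only at e1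
        simp only [e1]
      · intro v v' _ _ e
        have e1 : ((τ v : ℕ) : ℤ) = ((τ v' : ℕ) : ℤ) := (Prod.ext_iff.1 e).1
        exact Fin.ext (by exact_mod_cast e1)
    have t1 : CH q (fun v => ((τ v : ℕ) : ℤ)) (fun ω => (F.l ω, (K ω, F.W ω))) ≤
        Real.log (2 * (2 * 2 ^ (J - w - k)) + 1) := by
      refine (CH_le_int hq0 hql.sum_one _ _ (fun _ => 2 * 2 ^ (J - w - k)) ?_).trans (le_of_eq ?_)
      · intro v v' hv hv' e
        have e1 := Prod.ext_iff.1 e
        have e2 : F.T v = F.T v' := (Prod.ext_iff.1 (Prod.ext_iff.1 e1.2).2).1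
        have e6 : ((τ v : ℕ) : ℤ) - ((τ v' : ℕ) : ℤ) = rr F w τ v - rr F w τ v' := by
          rw [rr_eq, rr_eq, e2]
          ring
        rw [e6]
        have h2 := hr v hv
        have h3 := hr v' hv'
        have h4 : |rr F w τ v - rr F w τ v'| ≤ 2 * 2 ^ (J - w - k) := by
          refine (abs_sub _ _).trans ?_
          linarith
        have h5 : ((|rr F w τ v - rr F w τ v'| : ℤ) : ℝ) ≤ ((2 * 2 ^ (J - w - k) : ℤ) : ℝ) := by
          exact_mod_cast h4
        push_cast at h5 ⊢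
        exact h5
      · rw [Ex_const hql.sum_one]
    have t2 : Real.log (2 * (2 * 2 ^ (J - w - k)) + 1) ≤
        (((J - w : ℕ) : ℝ) - k + 3) * Real.log 2 := by
      have h1 := log_k (J - w - k + 1)
      have h2 : (2 : ℝ) * 2 ^ (J - w - k) = 2 ^ (J - w - k + 1) := by rw [pow_succ]; ring
      rw [h2]
      refine h1.trans (le_of_eq ?_)
      have h3 : ((J - w - k : ℕ) : ℝ) = ((J - w : ℕ) : ℝ) - k := by
        rw [Nat.cast_sub hk]
      push_cast
      rw [h3]
      ring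
    have h4 : CH q τ (fun ω => (F.l ω, (K ω, F.W ω))) ≤
        (((J - w : ℕ) : ℝ) - k + 3) * Real.log 2 := by
      rw [t0]
      exact t1.trans t2
    linarith

/-- The trivial bound. -/
theorem triv (F : Fam m J) {w : ℕ} {κ : Type} (K : F.Ω → κ) (τ : F.Ω → Fin (2 ^ (J - w)))
    {q : F.Ω → ℝ} (hql : IsLaw q) :
    CH q (fun v => F.X J v) (fun v => (τ v, (K v, F.W v))) ≤
    CH q (fun v => fl J (xT F w τ v)) (fun v => (τ v, (K v, F.W v))) +
      m * ((((J - w : ℕ) : ℝ) + 4) * Real.log 2) := by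
  have hq0 := hql.nonneg
  obtain ⟨W, hW⟩ : ∃ W : F.Ω → Fin (2 ^ (J - w)) × (κ × (ℕ × F.ζ)),
    W = fun v => (τ v, (K v, F.W v)) := ⟨_, rfl⟩
  rw [← hW]
  obtain ⟨X₁, hX₁⟩ : ∃ X : F.Ω → (Fin m → ℤ), X = fun v => fl J (xT F w τ v) := ⟨_, rfl⟩
  rw [← hX₁]
  have hJ0 : (0 : ℝ) < 2 ^ J := by positivity
  have hxx : ∀ (v : F.Ω) (i : Fin m),
      |2 ^ J * F.x v i - 2 ^ J * xT F w τ v i| ≤ 2 ^ (J - w) := by
    intro v i
    have e1 : ((rr F w τ v : ℤ) : ℝ) = (tau F w τ v : ℝ) - F.T v := by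
      unfold rr
      push_cast
      ring
    have e2 : 2 ^ J * F.x v i - 2 ^ J * xT F w τ v i = -((rr F w τ v : ℤ) : ℝ) * F.d v i := by
      rw [e1]
      unfold xT Fam.x Fam.t
      field_simp
      ring
    rw [e2, abs_mul, abs_neg]
    have h1 : |((rr F w τ v : ℤ) : ℝ)| ≤ 2 ^ (J - w) := by
      have h4 := (rr_abs F w τ v).le
      have : ((|rr F w τ v| : ℤ) : ℝ) ≤ (((2 : ℤ) ^ (J - w) : ℤ) : ℝ) := by exact_mod_cast h4
      push_cast at this
      exact this
    calc |((rr F w τ v : ℤ) : ℝ)| * |F.d v i| ≤ 2 ^ (J - w) * 1 :=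
          mul_le_mul h1 (F.dir v i) (abs_nonneg _) (by positivity)
      _ = 2 ^ (J - w) := mul_one _
  have t1 := CH_le_add hq0 (fun v => F.X J v) X₁ W
  have t2 : CH q (fun v => F.X J v) (fun v => (X₁ v, W v)) ≤
      m * ((((J - w : ℕ) : ℝ) + 4) * Real.log 2) := by
    have hL : Real.log (2 * (2 * 2 ^ (J - w) + 2) + 1) ≤ (((J - w : ℕ) : ℝ) + 4) * Real.log 2 := by
      have h1 : (1 : ℝ) ≤ 2 ^ (J - w) := one_le_pow₀ (by norm_num)
      calc Real.log (2 * (2 * 2 ^ (J - w) + 2) + 1) ≤ Real.log (2 ^ (J - w + 4)) := by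
            apply Real.log_le_log (by positivity)
            rw [pow_add]
            linarith
        _ = (((J - w : ℕ) : ℝ) + 4) * Real.log 2 := by
            rw [Real.log_pow]
            push_cast
            ring
    refine (CH_le_vec hq0 hql.sum_one (fun v => F.X J v) _ (fun _ => 2 * 2 ^ (J - w) + 2)
      ?_).trans ?_
    · intro v v' _ _ e i
      have e1 : X₁ v = X₁ v' := (Prod.ext_iff.1 e).1
      rw [hX₁] at e1
      have e2 : |(2 : ℝ) ^ J * xT F w τ v i - 2 ^ J * xT F w τ v' i| ≤ 1 :=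
        floor_same (congrFun e1 i)
      have e3 := hxx v i
      have e4 := hxx v' i
      have e5 : |2 ^ J * F.x v i - 2 ^ J * F.x v' i| ≤ 2 * 2 ^ (J - w) + 1 := by
        rw [abs_le] at e2 e3 e4 ⊢
        constructor <;> linarith [e2.1, e2.2, e3.1, e3.2, e4.1, e4.2]
      have e6 := floor_two e5
      refine e6.trans (le_of_eq ?_)
      ring
    · rw [Ex_const hql.sum_one]
      exact mul_le_mul_of_nonneg_left hL (Nat.cast_nonneg _)
  linarith

/-- **Two times of one line, general form.** -/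
theorem two_time_gen (h : KP m) : ∀ ε > 0, ∃ θ > 0, ∃ J₀ : ℕ, ∀ J ≥ J₀, ∀ F : Fam m J, ∀ w ≤ J,
    ∀ (κ : Type) (K : F.Ω → κ) (τ : F.Ω → Fin (2 ^ (J - w))),
      ((J - w : ℕ) : ℝ) * Real.log 2 - θ * J ≤ CH F.p τ (fun ω => (F.l ω, (K ω, F.W ω))) →
      CH F.p (F.X J) (fun ω => (τ ω, (K ω, F.W ω))) ≤
        CH F.p (fun ω => fl J (xT F w τ ω)) (fun ω => (τ ω, (K ω, F.W ω))) + ε * J := by
  intro ε hε
  have hl2 : 0 < Real.log 2 := Real.log_pos (by norm_num)
  have hl2' : Real.log 2 ≤ 1 := by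
    have := Real.log_two_lt_d9
    linarith
  have hl2'' : 1 / 2 ≤ Real.log 2 := by
    have := Real.log_two_gt_d9
    linarith
  have hl3 : 0 ≤ Real.log 3 := Real.log_nonneg (by norm_num)
  have hl3' : Real.log 3 ≤ 2 := by
    have h1 : Real.log 3 ≤ Real.log 4 := Real.log_le_log (by norm_num) (by norm_num)
    have h2 : Real.log 4 = 2 * Real.log 2 := by
      rw [show (4 : ℝ) = 2 ^ 2 by norm_num, Real.log_pow]
      norm_num
    linarith
  have hl7 : Real.log 7 ≤ 3 := by
    have h1 : Real.log 7 ≤ Real.log 8 := Real.log_le_log (by norm_num) (by norm_num)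
    have h2 : Real.log 8 = 3 * Real.log 2 := by
      rw [show (8 : ℝ) = 2 ^ 3 by norm_num, Real.log_pow]
      norm_num
    linarith
  have hl9 : Real.log 9 ≤ 4 := by
    have h1 : Real.log 9 ≤ Real.log 16 := Real.log_le_log (by norm_num) (by norm_num)
    have h2 : Real.log 16 = 4 * Real.log 2 := by
      rw [show (16 : ℝ) = 2 ^ 4 by norm_num, Real.log_pow]
      norm_num
    linarith
  have hm1 : (0 : ℝ) < m + 1 := by positivity
  have hm0 : (0 : ℝ) ≤ m := Nat.cast_nonneg m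
  -- the constants
  obtain ⟨δ, hδ⟩ : ∃ δ : ℝ, δ = min 1 (ε / (16 * (m + 1))) := ⟨_, rfl⟩
  have hδ0 : 0 < δ := by rw [hδ]; exact lt_min one_pos (by positivity)
  have hδ1 : δ ≤ 1 := by rw [hδ]; exact min_le_left _ _
  have hδm : δ * (m + 1) ≤ ε / 16 := by
    have h1 : δ ≤ ε / (16 * (m + 1)) := by rw [hδ]; exact min_le_right _ _
    rw [le_div_iff₀ (by positivity)] at h1
    linarith
  obtain ⟨η, hη⟩ : ∃ η : ℝ, η = ε / (8 * (m + 1)) := ⟨_, rfl⟩
  have hη0 : 0 < η := by rw [hη]; positivity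
  have hηm : η * (m + 1) = ε / 8 := by
    rw [hη]
    field_simp
  obtain ⟨θ₁, hθ₁, J₁, hJ₁⟩ := h (ε / 8) (by positivity)
  obtain ⟨σ, hσ⟩ : ∃ σ : ℝ, σ = min (ε / 16) (min (η / 2) (θ₁ * η / 4)) := ⟨_, rfl⟩
  have hσ0 : 0 < σ := by
    rw [hσ]
    exact lt_min (by positivity) (lt_min (by positivity) (by positivity))
  have hσ1 : σ ≤ ε / 16 := by rw [hσ]; exact min_le_left _ _
  have hσ2 : σ ≤ η / 2 := by rw [hσ]; exact (min_le_right _ _).trans (min_le_left _ _)
  have hσ3 : σ ≤ θ₁ * η / 4 := by rw [hσ]; exact (min_le_right _ _).trans (min_le_right _ _)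
  refine ⟨δ * σ / 4, by positivity, ?_⟩
  obtain ⟨C, hC⟩ : ∃ C : ℝ, C = (8 + 20 * δ) / (δ * σ) + 2 / η + J₁ / η +
    (2 / δ + 3) * 2 / (θ₁ * η) + (ε + 8 * m + 4) * 2 / ε := ⟨_, rfl⟩
  refine ⟨⌈C⌉₊ + 1, fun J hJ F w hw κ K τ hf => ?_⟩
  have hJC : C ≤ J := (Nat.le_ceil C).trans (by exact_mod_cast (by omega : ⌈C⌉₊ ≤ J))
  have hJ0 : (0 : ℝ) < J := by exact_mod_cast (by omega : 0 < J)
  have p1 : (0 : ℝ) ≤ (8 + 20 * δ) / (δ * σ) := by positivity
  have p2 : (0 : ℝ) ≤ 2 / η := by positivity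
  have p3 : (0 : ℝ) ≤ (J₁ : ℝ) / η := by positivity
  have p4 : (0 : ℝ) ≤ (2 / δ + 3) * 2 / (θ₁ * η) := by positivity
  have p5 : (0 : ℝ) ≤ (ε + 8 * m + 4) * 2 / ε := by positivity
  have c1 : 8 + 20 * δ ≤ δ * σ * J := by
    have h1 : (8 + 20 * δ) / (δ * σ) ≤ J := by linarith
    rw [div_le_iff₀ (by positivity)] at h1
    linarith
  have c2 : 2 ≤ η * J := by
    have h1 : 2 / η ≤ J := by linarith
    rw [div_le_iff₀ hη0] at h1
    linarith
  have c3 : (J₁ : ℝ) ≤ η * J := by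
    have h1 : (J₁ : ℝ) / η ≤ J := by linarith
    rw [div_le_iff₀ hη0] at h1
    linarith
  have c4 : (2 / δ + 3) * 2 ≤ θ₁ * η * J := by
    have h1 : (2 / δ + 3) * 2 / (θ₁ * η) ≤ J := by linarith
    rw [div_le_iff₀ (by positivity)] at h1
    linarith
  have c5 : (ε + 8 * m + 4) * 2 ≤ ε * J := by
    have h1 : (ε + 8 * m + 4) * 2 / ε ≤ J := by linarith
    rw [div_le_iff₀ hε] at h1
    linarith
  have hηJ : m * (η * J) ≤ ε / 8 * J := by
    have h1 : m * η ≤ ε / 8 := by
      have : (m + 1) * η = ε / 8 := by linarith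
      nlinarith
    calc (m : ℝ) * (η * J) = m * η * J := by ring
      _ ≤ ε / 8 * J := mul_le_mul_of_nonneg_right h1 hJ0.le
  obtain ⟨W, hW⟩ : ∃ W : F.Ω → Fin (2 ^ (J - w)) × (κ × (ℕ × F.ζ)),
    W = fun v => (τ v, (K v, F.W v)) := ⟨_, rfl⟩
  change CH F.p (fun v => F.X J v) (fun ω => (τ ω, (K ω, F.W ω))) ≤ _
  obtain ⟨N, hNN⟩ : ∃ N : ℝ, N = ((J - w : ℕ) : ℝ) := ⟨_, rfl⟩
  have hN0 : 0 ≤ N := by rw [hNN]; positivity
  have hNJ' : N ≤ J := by
    rw [hNN]
    exact_mod_cast Nat.sub_le _ _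
  rcases lt_or_ge N (η * J) with hN | hN
  · have h1 := triv F K τ F.isLaw
    rw [← hNN] at h1
    have h3 : (m : ℝ) * ((N + 4) * Real.log 2) ≤ m * (η * J) + m * 4 := by
      have h5 : (N + 4) * Real.log 2 ≤ η * J + 4 := by nlinarith
      calc (m : ℝ) * ((N + 4) * Real.log 2) ≤ m * (η * J + 4) :=
            mul_le_mul_of_nonneg_left h5 hm0
        _ = m * (η * J) + m * 4 := by ring
    have h6 : ε / 8 * J + m * 4 ≤ ε * J := by linarith
    linarith
  · obtain ⟨k, hk⟩ : ∃ k : ℕ, k = ⌈σ * J⌉₊ := ⟨_, rfl⟩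
    have hk1 : σ * J ≤ k := by rw [hk]; exact Nat.le_ceil _
    have hk2 : (k : ℝ) ≤ σ * J + 1 := by
      rw [hk]
      exact (Nat.ceil_lt_add_one (by positivity)).le
    have hσJ0 : 0 < σ * J := by positivity
    have hσJ2 : σ * J ≤ η / 2 * J := mul_le_mul_of_nonneg_right hσ2 hJ0.le
    have hkN : k ≤ J - w := by
      have h1 : (k : ℝ) ≤ ((J - w : ℕ) : ℝ) := by
        rw [← hNN]
        linarith
      exact_mod_cast h1
    have hNJ : J₁ ≤ J - w := by
      have h1 : (J₁ : ℝ) ≤ ((J - w : ℕ) : ℝ) := by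
        rw [← hNN]
        linarith
      exact_mod_cast h1
    -- the part zero
    have hz0 := law_nonneg F.isLaw.nonneg (sg F w k τ) 0
    have hlaw0 : law F.p (sg F w k τ) 0 ≤ δ := by
      have h1 := sg_zero F hkN K τ (by positivity) hf
      have h2 : δ * σ / 4 * J + Real.log 3 ≤ δ * (k * Real.log 2 - 3 * Real.log 2) := by
        have h3 : σ * J * (1 / 2) ≤ k * Real.log 2 := by
          have : σ * J * (1 / 2) ≤ k * (1 / 2) := by linarith
          exact this.trans (mul_le_mul_of_nonneg_left hl2'' (Nat.cast_nonneg k))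
        have h4 : σ * J * (1 / 2) - 3 ≤ k * Real.log 2 - 3 * Real.log 2 := by linarith
        have h5 := mul_le_mul_of_nonneg_left h4 hδ0.le
        nlinarith
      have h3 : 0 < k * Real.log 2 - 3 * Real.log 2 := by
        by_contra hc
        have h4 : δ * (k * Real.log 2 - 3 * Real.log 2) ≤ 0 :=
          mul_nonpos_of_nonneg_of_nonpos hδ0.le (not_lt.1 hc)
        have h5 : 0 < δ * σ / 4 * J := by positivity
        linarith
      exact le_of_mul_le_mul_right (h1.trans h2) h3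
    -- the times of the parts
    have htime : (δ * σ / 4 * J + Real.log 3) / δ + Real.log (2 * 2 ^ k + 1) ≤
        θ₁ * ((J - w : ℕ) : ℝ) := by
      rw [← hNN]
      have h1 : (δ * σ / 4 * J + Real.log 3) / δ ≤ σ * J / 4 + 2 / δ := by
        have h2 : (δ * σ / 4 * J + Real.log 3) / δ = σ * J / 4 + Real.log 3 / δ := by
          field_simp
        rw [h2]
        have h3 : Real.log 3 / δ ≤ 2 / δ := by gcongr
        linarith
      have h2 : Real.log (2 * 2 ^ k + 1) ≤ σ * J + 3 := by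
        refine (log_k k).trans ?_
        have h3 : ((k : ℝ) + 2) * Real.log 2 ≤ k + 2 := by
          have : (0 : ℝ) ≤ (k : ℝ) + 2 := by positivity
          nlinarith
        linarith
      have h3 : θ₁ * (η * J) ≤ θ₁ * N := mul_le_mul_of_nonneg_left hN hθ₁.le
      have h4 : σ * J ≤ θ₁ * η / 4 * J := mul_le_mul_of_nonneg_right hσ3 hJ0.le
      have h5 : θ₁ * (η * J) = θ₁ * η * J := by ring
      have h6 : 0 < θ₁ * η * J := by positivity
      linarith
    -- condition on the sign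
    have hsw : ∀ {S : Type} (X : F.Ω → S), CH F.p X W =
        CH F.p X (fun v => (W v, sg F w k τ v)) := by
      intro S X
      refine CH_congr F.isLaw.nonneg (fun _ _ _ _ e => (Prod.ext_iff.1 e).1)
        (fun _ _ _ _ e => (Prod.ext_iff.1 e).1) ?_ ?_
      · intro v v' _ _ e
        refine Prod.ext e ?_
        rw [hW] at e
        have e1 := Prod.ext_iff.1 e
        have e2 : τ v = τ v' := e1.1
        have e3 : F.T v = F.T v' := (Prod.ext_iff.1 (Prod.ext_iff.1 e1.2).2).1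
        have e4 : rr F w τ v = rr F w τ v' := by rw [rr_eq, rr_eq, e2, e3]
        change sg F w k τ v = sg F w k τ v'
        unfold sg
        rw [e4]
      · intro v v' _ _ e
        exact (Prod.ext_iff.1 e).1
    rw [← hW, hsw, hsw, CH_split F.isLaw.nonneg, CH_split F.isLaw.nonneg]
    obtain ⟨D, hD⟩ : ∃ D : ℝ, D = Real.log (2 * 2 ^ k + 1) + (m * Real.log 7 + m * Real.log 9) :=
      ⟨_, rfl⟩
    have hlk0 : 0 ≤ Real.log (2 * 2 ^ k + 1) := Real.log_nonneg (by
      have : (0 : ℝ) < 2 ^ k := by positivity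
      linarith)
    have hD0 : 0 ≤ D := by
      rw [hD]
      have h1 : 0 ≤ Real.log 7 := Real.log_nonneg (by norm_num)
      have h2 : 0 ≤ Real.log 9 := Real.log_nonneg (by norm_num)
      positivity
    have hD1 : D ≤ σ * J + 3 + 7 * m := by
      rw [hD]
      have h2 : Real.log (2 * 2 ^ k + 1) ≤ σ * J + 3 := by
        refine (log_k k).trans ?_
        have h3 : ((k : ℝ) + 2) * Real.log 2 ≤ k + 2 := by
          have : (0 : ℝ) ≤ (k : ℝ) + 2 := by positivity
          nlinarith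
        linarith
      have h3 : m * Real.log 7 ≤ m * 3 := mul_le_mul_of_nonneg_left hl7 hm0
      have h4 : m * Real.log 9 ≤ m * 4 := mul_le_mul_of_nonneg_left hl9 hm0
      linarith
    obtain ⟨E₁, hE₁⟩ : ∃ E : ℝ, E = ε / 8 * N + D := ⟨_, rfl⟩
    obtain ⟨E₂, hE₂⟩ : ∃ E : ℝ, E = m * ((N + 4) * Real.log 2) := ⟨_, rfl⟩
    have hE₁0 : 0 ≤ E₁ := by rw [hE₁]; positivity
    have hE₂0 : 0 ≤ E₂ := by rw [hE₂]; positivity
    have hone : ∀ j, law F.p (sg F w k τ) j *
        CH (cond F.p (sg F w k τ) j) (fun v => F.X J v) W ≤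
        law F.p (sg F w k τ) j * CH (cond F.p (sg F w k τ) j) (fun v => fl J (xT F w τ v)) W +
          (law F.p (sg F w k τ) j * E₁ + δ * E₂) := by
      intro j
      have hlj := law_nonneg F.isLaw.nonneg (sg F w k τ) j
      rcases hlj.eq_or_lt with h0 | h0
      · rw [← h0]
        have := mul_nonneg hδ0.le hE₂0
        linarith
      · have hlaw := law_cond' F.isLaw (sg F w k τ) h0
        have ht := triv F K τ hlaw
        rw [← hW, ← hNN, ← hE₂] at ht
        by_cases hj : j = 0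
        · have h1 := mul_le_mul_of_nonneg_left ht hlj
          have h2 : law F.p (sg F w k τ) j * E₂ ≤ δ * E₂ := by
            rw [hj]
            exact mul_le_mul_of_nonneg_right hlaw0 hE₂0
          have h3 := mul_nonneg hlj hE₁0
          linarith
        · by_cases hjp : δ ≤ law F.p (sg F w k τ) j
          · have htm := prj_tm F hkN K τ hlaw hj hf hδ0 hjp htime
            have hv := hJ₁ (J - w) hNJ _ htm
            have h1 := two_core F hw hkN K τ hlaw hj hv
            rw [← hW, ← hNN, ← hD, ← hE₁] at h1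
            have h2 := mul_le_mul_of_nonneg_left h1 hlj
            have h3 := mul_nonneg hδ0.le hE₂0
            linarith
          · have h1 := mul_le_mul_of_nonneg_left ht hlj
            have h2 := mul_le_mul_of_nonneg_right (not_le.1 hjp).le hE₂0
            have h3 := mul_nonneg hlj hE₁0
            linarith
    have hsum := Finset.sum_le_sum (s := univ.image (sg F w k τ)) fun j _ => hone j
    rw [Finset.sum_add_distrib, Finset.sum_add_distrib, ← Finset.sum_mul] at hsum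
    have hs1 : ∑ j ∈ univ.image (sg F w k τ), law F.p (sg F w k τ) j = 1 := by
      rw [sum_law, F.isLaw.sum_one]
    have hs2 : ∑ _j ∈ univ.image (sg F w k τ), δ * E₂ ≤ 3 * (δ * E₂) := by
      rw [Finset.sum_const, nsmul_eq_mul]
      refine mul_le_mul_of_nonneg_right ?_ (by positivity)
      have h1 : univ.image (sg F w k τ) ⊆ ({0, 1, -1} : Finset ℤ) := by
        intro x hx
        obtain ⟨v, -, rfl⟩ := Finset.mem_image.1 hx
        exact sg_mem F w k τ v
      have h2 := Finset.card_le_card h1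
      have h3 : ({0, 1, -1} : Finset ℤ).card = 3 := by decide
      rw [h3] at h2
      exact_mod_cast h2
    rw [hs1, one_mul] at hsum
    have hE2' : δ * E₂ ≤ ε / 16 * J + ε / 4 := by
      have h1 : E₂ ≤ m * (J + 4) := by
        rw [hE₂]
        have : (N + 4) * Real.log 2 ≤ J + 4 := by nlinarith
        exact mul_le_mul_of_nonneg_left this hm0
      have h2 : δ * m ≤ ε / 16 := by nlinarith
      calc δ * E₂ ≤ δ * (m * (J + 4)) := mul_le_mul_of_nonneg_left h1 hδ0.le
        _ = δ * m * (J + 4) := by ring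
        _ ≤ ε / 16 * (J + 4) := mul_le_mul_of_nonneg_right h2 (by positivity)
        _ = ε / 16 * J + ε / 4 := by ring
    have hfin : ε / 8 * N ≤ ε / 8 * J := mul_le_mul_of_nonneg_left hNJ' (by positivity)
    have hσJ1 : σ * J ≤ ε / 16 * J := mul_le_mul_of_nonneg_right hσ1 hJ0.le
    rw [hE₁] at hsum
    have h9 : (0 : ℝ) ≤ ε * J := by positivity
    linarith

end Pool.TWG
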