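import Pool.Agent.H81.XF.Uni
import Pool.Agent.H9.KA.Defs
import Pool.Agent.H65.OVN.Box2
import Pool.Agent.H7.SLP.H5M
import Pool.Agent.H46.MIC.Ev

/-!
# Two times of one line

`two_time`: the inequality `KP m` after a projective change of the time. For a family of lines with
any side information: the position at the own time has, given the side information, at most the
entropy of the position at a time which is uniform in the window of the own time, up to `ε J`.
-/

set_option autoImplicit false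

namespace Pool.TWO

open Finset Real
open Pool.Agent.H49.Ent Pool.Agent.H32.Dense Pool.STK Pool.KA
open Pool.XF (uni uni_law uni_pos uni_marg CH_uni)

/-! ### Entropy -/

section ent

variable {Ω S T : Type} [Fintype Ω]

/-- A full variable is full on the values of a variable with few values. -/
theorem cond_full {p : Ω → ℝ} (hp : IsLaw p) {X : Ω → S} {Y : Ω → T} {A : Ω → ℤ} {a : ℤ}
    {L e c : ℝ} (ha : 0 < law p A a) (hX : L - e ≤ CH p X Y) (hA : CH p A Y ≤ c)
    (hu : ∀ b, 0 < law p A b → CH (cond p A b) X Y ≤ L) :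
    law p A a * (L - CH (cond p A a) X Y) ≤ e + c := by
  classical
  have hp0 := hp.nonneg
  have h1 := CH_split hp0 X Y A
  have h2 : CH p X Y ≤ CH p A Y + CH p X (fun ω => (A ω, Y ω)) := CH_le_add hp0 X A Y
  have h3 : CH p X (fun ω => (A ω, Y ω)) = CH p X (fun ω => (Y ω, A ω)) :=
    Pool.MIC.CH_swc hp0 X A Y
  have hsum : ∑ b ∈ univ.image A, law p A b = 1 := by
    have h4 := sum_law p A
    rw [h4]
    exact hp.sum_one
  have h5 : ∑ b ∈ univ.image A, law p A b * (L - CH (cond p A b) X Y) =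
      L - CH p X (fun ω => (Y ω, A ω)) := by
    rw [h1]
    rw [Finset.sum_congr rfl fun b _ => mul_sub (law p A b) L (CH (cond p A b) X Y),
      Finset.sum_sub_distrib, ← Finset.sum_mul, hsum, one_mul]
  have h6 : law p A a * (L - CH (cond p A a) X Y) ≤
      ∑ b ∈ univ.image A, law p A b * (L - CH (cond p A b) X Y) := by
    refine Finset.single_le_sum (f := fun b => law p A b * (L - CH (cond p A b) X Y))
      (fun b _ => ?_) ?_
    · rcases (law_nonneg hp0 A b).eq_or_lt with h | h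
      · rw [← h, zero_mul]
      · exact mul_nonneg h.le (sub_nonneg.2 (hu b h))
    · by_contra hcon
      rw [law_eq_zero_of_notMem p A hcon] at ha
      exact lt_irrefl _ ha
  rw [h5, ← h3] at h6
  linarith

end ent

/-! ### The second time -/

variable {m J : ℕ}

/-- A time of the window of the own time. -/
def tau (F : Fam m J) (w : ℕ) (v : F.Ω × Fin (2 ^ (J - w))) : ℕ :=
  F.T1 w v.1 * 2 ^ (J - w) + (v.2 : ℕ)

/-- The position at this time. -/
noncomputable def xT (F : Fam m J) (w : ℕ) (v : F.Ω × Fin (2 ^ (J - w))) (i : Fin m) : ℝ :=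
  F.u v.1 i + (tau F w v : ℝ) / 2 ^ J * F.d v.1 i

/-- The difference of the two times. -/
def rr (F : Fam m J) (w : ℕ) (v : F.Ω × Fin (2 ^ (J - w))) : ℤ := (tau F w v : ℤ) - F.T v.1

/-- The sign of the difference of the two times, zero if it is small. -/
def sg (F : Fam m J) (w k : ℕ) (v : F.Ω × Fin (2 ^ (J - w))) : ℤ :=
  if (2 : ℤ) ^ (J - w - k) < rr F w v then 1 else
    if (2 : ℤ) ^ (J - w - k) < -rr F w v then -1 else 0

/-- The new time. -/
def nt (F : Fam m J) (w k : ℕ) (v : F.Ω × Fin (2 ^ (J - w))) : ℕ :=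
  if sg F w k v = 0 then 0 else 2 ^ (2 * (J - w) - k) / (rr F w v).natAbs

theorem rr_eq (F : Fam m J) (w : ℕ) (v : F.Ω × Fin (2 ^ (J - w))) :
    rr F w v = ((v.2 : ℕ) : ℤ) - ((F.T v.1 % 2 ^ (J - w) : ℕ) : ℤ) := by
  unfold rr tau Fam.T1
  have h := Nat.div_add_mod (F.T v.1) (2 ^ (J - w))
  have h2 : ((F.T v.1 : ℕ) : ℤ) = ((2 ^ (J - w) * (F.T v.1 / 2 ^ (J - w)) +
      F.T v.1 % 2 ^ (J - w) : ℕ) : ℤ) := by rw [h]
  rw [h2]
  push_cast
  ring

theorem rr_abs (F : Fam m J) (w : ℕ) (v : F.Ω × Fin (2 ^ (J - w))) :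
    |rr F w v| < 2 ^ (J - w) := by
  rw [rr_eq]
  have h1 := v.2.2
  have h2 := Nat.mod_lt (F.T v.1) (show 0 < 2 ^ (J - w) by positivity)
  have h3 : ((v.2 : ℕ) : ℤ) < 2 ^ (J - w) := by exact_mod_cast h1
  have h4 : ((F.T v.1 % 2 ^ (J - w) : ℕ) : ℤ) < 2 ^ (J - w) := by exact_mod_cast h2
  have h5 : (0 : ℤ) ≤ ((v.2 : ℕ) : ℤ) := Int.natCast_nonneg _
  have h6 : (0 : ℤ) ≤ ((F.T v.1 % 2 ^ (J - w) : ℕ) : ℤ) := Int.natCast_nonneg _
  rw [abs_lt]
  constructor <;> linarith

theorem sg_cases (F : Fam m J) (w k : ℕ) (v : F.Ω × Fin (2 ^ (J - w))) {j : ℤ}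
    (h : sg F w k v = j) (hj : j ≠ 0) :
    (j = 1 ∨ j = -1) ∧ (2 : ℤ) ^ (J - w - k) < |rr F w v| ∧ (|rr F w v| : ℤ) = j * rr F w v := by
  have hp : (0 : ℤ) < 2 ^ (J - w - k) := by positivity
  unfold sg at h
  split_ifs at h with h1 h2
  · subst h
    have h3 : 0 < rr F w v := hp.trans h1
    refine ⟨Or.inl rfl, ?_, ?_⟩
    · rwa [abs_of_pos h3]
    · rw [abs_of_pos h3, one_mul]
  · subst h
    have h3 : rr F w v < 0 := by linarith
    refine ⟨Or.inr rfl, ?_, ?_⟩
    · rwa [abs_of_neg h3]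
    · rw [abs_of_neg h3]
      ring
  · exact absurd h.symm hj

theorem nt_lt (F : Fam m J) (w k : ℕ) (hk : k ≤ J - w) (v : F.Ω × Fin (2 ^ (J - w))) :
    nt F w k v < 2 ^ (J - w) := by
  unfold nt
  split_ifs with h
  · positivity
  · obtain ⟨-, h1, -⟩ := sg_cases F w k v rfl h
    have h2 : (2 : ℕ) ^ (J - w - k) < (rr F w v).natAbs := by
      have h3 : (((rr F w v).natAbs : ℕ) : ℤ) = |rr F w v| := Int.natCast_natAbs _
      have h4 : (((2 : ℕ) ^ (J - w - k) : ℕ) : ℤ) < (((rr F w v).natAbs : ℕ) : ℤ) := by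
        rw [h3]
        push_cast
        exact h1
      exact_mod_cast h4
    have h0 : 0 < (rr F w v).natAbs := lt_of_le_of_lt (Nat.zero_le _) h2
    rw [Nat.div_lt_iff_lt_mul h0]
    calc 2 ^ (2 * (J - w) - k) = 2 ^ (J - w) * 2 ^ (J - w - k) := by
          rw [← pow_add]
          congr 1
          omega
      _ < 2 ^ (J - w) * (rr F w v).natAbs := Nat.mul_lt_mul_of_pos_left h2 (by positivity)

/-- **The family with the new time**: the direction is the position at the own time. -/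
noncomputable def prj (F : Fam m J) (w k : ℕ) (hk : k ≤ J - w) {κ : Type} (K : F.Ω → κ) (j : ℤ)
    (hl : IsLaw (cond (uni (J - w) F.p) (sg F w k) j)) : Fam m (J - w) where
  Ω := F.Ω × Fin (2 ^ (J - w))
  ζ := (κ × (ℕ × F.ζ)) × (Fin m → ℤ)
  fin := inferInstance
  p := cond (uni (J - w) F.p) (sg F w k) j
  u := fun v i => j * F.d v.1 i / 2 ^ k
  d := fun v i => Int.fract (2 ^ w * F.x v.1 i)
  T := nt F w k
  Z := fun v => ((K v.1, F.W v.1), fl w (F.x v.1))
  isLaw := hl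
  dir := fun v i => by
    rw [abs_of_nonneg (Int.fract_nonneg _)]
    exact (Int.fract_lt_one _).le
  tim := nt_lt F w k hk

/-- The relation between the positions. -/
theorem prj_x (F : Fam m J) {w k : ℕ} (hw : w ≤ J) (hk : k ≤ J - w) {κ : Type} (K : F.Ω → κ)
    {j : ℤ} (hl : IsLaw (cond (uni (J - w) F.p) (sg F w k) j)) (hj : j ≠ 0)
    (v : F.Ω × Fin (2 ^ (J - w))) (hv : sg F w k v = j) (i : Fin m) :
    |2 ^ (J - w) * (prj F w k hk K j hl).x v i -
      2 ^ (J - w) * (2 ^ (J - w - k) / ((|rr F w v| : ℤ) : ℝ) *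
        (2 ^ w * xT F w v i - fl w (F.x v.1) i)) +
      Int.fract ((2 : ℝ) ^ (2 * (J - w) - k) / ((|rr F w v| : ℤ) : ℝ)) *
        Int.fract (2 ^ w * F.x v.1 i)| ≤ 0 := by
  obtain ⟨h1, h2, h3⟩ := sg_cases F w k v hv hj
  have hp : (0 : ℤ) < 2 ^ (J - w - k) := by positivity
  have ha : (0 : ℤ) < |rr F w v| := hp.trans h2
  have haR : (0 : ℝ) < ((|rr F w v| : ℤ) : ℝ) := by exact_mod_cast ha
  obtain ⟨a, haa⟩ : ∃ a : ℝ, a = ((|rr F w v| : ℤ) : ℝ) := ⟨_, rfl⟩
  have hjr : a = (j : ℝ) * ((rr F w v : ℤ) : ℝ) := by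
    rw [haa, h3]
    push_cast
    ring
  have hjj : (j : ℝ) * j = 1 := by
    rcases h1 with h | h <;> rw [h] <;> norm_num
  rw [← haa] at haR ⊢
  -- the new time
  have hnt : ((nt F w k v : ℕ) : ℝ) = (2 : ℝ) ^ (2 * (J - w) - k) / a -
      Int.fract ((2 : ℝ) ^ (2 * (J - w) - k) / a) := by
    have e1 : nt F w k v = 2 ^ (2 * (J - w) - k) / (rr F w v).natAbs := by
      unfold nt
      rw [if_neg (by rw [hv]; exact hj)]
    have e2 : ((rr F w v).natAbs : ℝ) = a := by
      rw [haa, Nat.cast_natAbs]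
    have e3 : ⌊(2 : ℝ) ^ (2 * (J - w) - k) / a⌋ = ((nt F w k v : ℕ) : ℤ) := by
      rw [e1, ← e2]
      have e4 : ((2 : ℝ) ^ (2 * (J - w) - k)) = (((2 ^ (2 * (J - w) - k) : ℕ) : ℝ)) := by
        push_cast
        rfl
      rw [e4]
      have e5 := Nat.floor_div_eq_div (K := ℝ) (2 ^ (2 * (J - w) - k)) (rr F w v).natAbs
      rw [← e5, Int.natCast_floor_eq_floor (by positivity)]
    have e6 := Int.self_sub_floor ((2 : ℝ) ^ (2 * (J - w) - k) / a)
    rw [e3] at e6
    have e7 : (((nt F w k v : ℕ) : ℤ) : ℝ) = ((nt F w k v : ℕ) : ℝ) := by push_cast; rfl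
    rw [e7] at e6
    linarith
  have hx : (prj F w k hk K j hl).x v i = j * F.d v.1 i / 2 ^ k +
      ((nt F w k v : ℕ) : ℝ) / 2 ^ (J - w) * Int.fract (2 ^ w * F.x v.1 i) := rfl
  have hfr : Int.fract (2 ^ w * F.x v.1 i) = 2 ^ w * F.x v.1 i - fl w (F.x v.1) i := by
    rw [← Int.self_sub_floor]
    rfl
  have hJ : (2 : ℝ) ^ J = 2 ^ w * 2 ^ (J - w) := by
    rw [← pow_add]
    congr 1
    omega
  have hxT : 2 ^ w * xT F w v i = 2 ^ w * F.x v.1 i + (rr F w v : ℝ) / 2 ^ (J - w) * F.d v.1 i := by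
    have e1 : ((rr F w v : ℤ) : ℝ) = (tau F w v : ℝ) - F.T v.1 := by
      unfold rr
      push_cast
      ring
    rw [e1]
    unfold xT Fam.x Fam.t
    rw [hJ]
    field_simp
    ring
  have hN2 : (2 : ℝ) ^ (2 * (J - w) - k) = 2 ^ (J - w) * 2 ^ (J - w - k) := by
    rw [← pow_add]
    congr 1
    omega
  have hNk : (2 : ℝ) ^ (J - w) = 2 ^ (J - w - k) * 2 ^ k := by
    rw [← pow_add]
    congr 1
    omega
  refine le_of_eq ?_
  rw [abs_eq_zero, hx, hnt, hfr, hxT]
  obtain ⟨f, hf⟩ : ∃ f : ℝ, f = Int.fract ((2 : ℝ) ^ (2 * (J - w) - k) / a) := ⟨_, rfl⟩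
  rw [← hf, hN2]
  obtain ⟨R, hR⟩ : ∃ R : ℝ, R = ((rr F w v : ℤ) : ℝ) := ⟨_, rfl⟩
  rw [← hR] at hjr ⊢
  have hRj : R = j * a := by
    rw [hjr, ← mul_assoc, hjj, one_mul]
  rw [hRj, hNk]
  have h2k : (0 : ℝ) < 2 ^ k := by positivity
  have h2n : (0 : ℝ) < 2 ^ (J - w - k) := by positivity
  field_simp
  ring

theorem fl_split {w : ℕ} (hw : w ≤ J) (x : Fin m → ℝ) (i : Fin m) :
    fl J x i = 2 ^ (J - w) * fl w x i + fl (J - w) (fun i => Int.fract (2 ^ w * x i)) i := by
  change ⌊(2 : ℝ) ^ J * x i⌋ = 2 ^ (J - w) * ⌊(2 : ℝ) ^ w * x i⌋ +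
    ⌊(2 : ℝ) ^ (J - w) * Int.fract (2 ^ w * x i)⌋
  have e1 : (2 : ℝ) ^ J * x i = ((2 ^ (J - w) * ⌊(2 : ℝ) ^ w * x i⌋ : ℤ) : ℝ) +
      2 ^ (J - w) * Int.fract (2 ^ w * x i) := by
    have e2 : (2 : ℝ) ^ J = 2 ^ (J - w) * 2 ^ w := by
      rw [← pow_add]
      congr 1
      omega
    have e3 := Int.self_sub_floor ((2 : ℝ) ^ w * x i)
    rw [e2, ← e3]
    push_cast
    ring
  rw [e1, Int.floor_intCast_add]

/-- Two integer parts. -/
theorem floor_two {x y L : ℝ} (h : |x - y| ≤ L) : |((⌊x⌋ - ⌊y⌋ : ℤ) : ℝ)| ≤ L + 1 := by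
  have h1 := Int.floor_le x
  have h2 := Int.lt_floor_add_one x
  have h3 := Int.floor_le y
  have h4 := Int.lt_floor_add_one y
  push_cast
  rw [abs_le] at h ⊢
  constructor <;> linarith [h.1, h.2]

theorem floor_same {x y : ℝ} (h : ⌊x⌋ = ⌊y⌋) : |x - y| ≤ 1 := by
  have h1 := Int.floor_le x
  have h2 := Int.lt_floor_add_one x
  have h3 := Int.floor_le y
  have h4 := Int.lt_floor_add_one y
  rw [h] at h1 h2
  rw [abs_le]
  constructor <;> linarith

/-- The number of the pairs of times with the same new time. -/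
theorem nt_near (F : Fam m J) {w k : ℕ} (hk : k ≤ J - w) {j : ℤ} (hj : j ≠ 0)
    {v v' : F.Ω × Fin (2 ^ (J - w))} (hv : sg F w k v = j) (hv' : sg F w k v' = j)
    (ht : nt F w k v = nt F w k v') :
    |((rr F w v - rr F w v' : ℤ) : ℝ)| ≤ 2 ^ k := by
  obtain ⟨h1, h2, h3⟩ := sg_cases F w k v hv hj
  obtain ⟨-, h2', h3'⟩ := sg_cases F w k v' hv' hj
  have hp : (0 : ℤ) < 2 ^ (J - w - k) := by positivity
  have ha : (0 : ℤ) < |rr F w v| := hp.trans h2
  have ha' : (0 : ℤ) < |rr F w v'| := hp.trans h2'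
  have e1 : nt F w k v = 2 ^ (2 * (J - w) - k) / (rr F w v).natAbs := by
    unfold nt
    rw [if_neg (by rw [hv]; exact hj)]
  have e1' : nt F w k v' = 2 ^ (2 * (J - w) - k) / (rr F w v').natAbs := by
    unfold nt
    rw [if_neg (by rw [hv']; exact hj)]
  obtain ⟨t, ht0⟩ : ∃ t, t = nt F w k v := ⟨_, rfl⟩
  obtain ⟨a, haa⟩ : ∃ a, a = (rr F w v).natAbs := ⟨_, rfl⟩
  obtain ⟨a', haa'⟩ : ∃ a, a = (rr F w v').natAbs := ⟨_, rfl⟩
  have hac : ((a : ℕ) : ℤ) = |rr F w v| := by rw [haa]; exact Int.natCast_natAbs _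
  have hac' : ((a' : ℕ) : ℤ) = |rr F w v'| := by rw [haa']; exact Int.natCast_natAbs _
  have ha0 : 0 < a := by
    have : (0 : ℤ) < (a : ℤ) := by rw [hac]; exact ha
    exact_mod_cast this
  have ha0' : 0 < a' := by
    have : (0 : ℤ) < (a' : ℤ) := by rw [hac']; exact ha'
    exact_mod_cast this
  have hu : a < 2 ^ (J - w) := by
    have h4 := rr_abs F w v
    rw [← hac] at h4
    exact_mod_cast h4
  have hu' : a' < 2 ^ (J - w) := by
    have h4 := rr_abs F w v'
    rw [← hac'] at h4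
    exact_mod_cast h4
  rw [← haa] at e1
  rw [← haa'] at e1'
  rw [← ht, ← ht0] at e1'
  rw [← ht0] at e1
  -- bounds of the quotient
  obtain ⟨M, hM⟩ : ∃ M : ℕ, M = 2 ^ (2 * (J - w) - k) := ⟨_, rfl⟩
  rw [← hM] at e1 e1'
  have hM2 : M = 2 ^ (J - w) * 2 ^ (J - w - k) := by
    rw [hM, ← pow_add]
    congr 1
    omega
  have ht1 : 2 ^ (J - w - k) ≤ t := by
    rw [e1, Nat.le_div_iff_mul_le ha0, hM2, mul_comm]
    exact Nat.mul_le_mul_right _ hu.le
  have b1 : t * a ≤ M := by rw [e1]; exact Nat.div_mul_le_self _ _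
  have b2 : M < (t + 1) * a := by
    rw [e1]
    have := Nat.lt_div_mul_add ha0 (a := M)
    calc M < M / a * a + a := this
      _ = (M / a + 1) * a := by ring
  have b1' : t * a' ≤ M := by rw [e1']; exact Nat.div_mul_le_self _ _
  have b2' : M < (t + 1) * a' := by
    rw [e1']
    have := Nat.lt_div_mul_add ha0' (a := M)
    calc M < M / a' * a' + a' := this
      _ = (M / a' + 1) * a' := by ring
  -- reals
  have hdiff : |(a : ℝ) - a'| ≤ 2 ^ k := by
    have c1 : (t : ℝ) * a ≤ M := by exact_mod_cast b1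
    have c2 : (M : ℝ) < (t + 1) * a := by exact_mod_cast b2
    have c1' : (t : ℝ) * a' ≤ M := by exact_mod_cast b1'
    have c2' : (M : ℝ) < (t + 1) * a' := by exact_mod_cast b2'
    have c3 : (2 : ℝ) ^ (J - w - k) ≤ t := by exact_mod_cast ht1
    have c4 : (a : ℝ) < 2 ^ (J - w) := by exact_mod_cast hu
    have c4' : (a' : ℝ) < 2 ^ (J - w) := by exact_mod_cast hu'
    have c5 : (2 : ℝ) ^ (J - w) = 2 ^ (J - w - k) * 2 ^ k := by
      rw [← pow_add]
      congr 1
      omega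
    have c6 : (0 : ℝ) < 2 ^ (J - w - k) := by positivity
    have c7 : (0 : ℝ) < 2 ^ k := by positivity
    have c8 : (0 : ℝ) < t := c6.trans_le c3
    have key : ∀ x y : ℝ, t * x ≤ M → M < (t + 1) * y → y < 2 ^ (J - w) → x - y ≤ 2 ^ k := by
      intro x y g1 g2 g3
      have g4 : t * (x - y) ≤ y := by nlinarith
      have g5 : (t : ℝ) * (x - y) ≤ t * 2 ^ k := by
        refine (g4.trans g3.le).trans ?_
        rw [c5]
        exact mul_le_mul_of_nonneg_right c3 c7.le
      exact le_of_mul_le_mul_left g5 c8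
    rw [abs_le]
    constructor
    · have := key a' a c1' c2 c4
      linarith
    · exact key a a' c1 c2' c4'
  have hr : ((rr F w v - rr F w v' : ℤ) : ℝ) = (j : ℝ) * ((a : ℝ) - a') := by
    have hjj : j * j = 1 := by
      rcases h1 with h | h <;> rw [h] <;> norm_num
    have f1 : rr F w v = j * (a : ℤ) := by
      rw [hac, h3, ← mul_assoc, hjj, one_mul]
    have f2 : rr F w v' = j * (a' : ℤ) := by
      rw [hac', h3', ← mul_assoc, hjj, one_mul]
    rw [f1, f2]
    push_cast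
    ring
  rw [hr, abs_mul]
  have hj1 : |(j : ℝ)| = 1 := by
    rcases h1 with h | h <;> rw [h] <;> norm_num
  rw [hj1, one_mul]
  exact hdiff

/-- **The inequality on the part of the sign `j`.** -/
theorem two_core (F : Fam m J) {w k : ℕ} (hw : w ≤ J) (hk : k ≤ J - w) {κ : Type} (K : F.Ω → κ)
    {j : ℤ} (hl : IsLaw (cond (uni (J - w) F.p) (sg F w k) j)) (hj : j ≠ 0) {V : ℝ}
    (hV : (prj F w k hk K j hl).V (J - w) ≤ V) :
    CH (cond (uni (J - w) F.p) (sg F w k) j) (fun v => F.X J v.1)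
      (fun v => (v.2, (K v.1, F.W v.1))) ≤
    CH (cond (uni (J - w) F.p) (sg F w k) j) (fun v => fl J (xT F w v))
      (fun v => (v.2, (K v.1, F.W v.1))) +
      (V + (Real.log (2 * 2 ^ k + 1) + (m * Real.log 7 + m * Real.log 9))) := by
  obtain ⟨q, hq⟩ : ∃ q, q = cond (uni (J - w) F.p) (sg F w k) j := ⟨_, rfl⟩
  have hql : IsLaw q := by rw [hq]; exact hl
  have hq0 := hql.nonneg
  have hu0 : ∀ v, 0 ≤ uni (J - w) F.p v := (uni_law F.isLaw (J - w)).nonneg
  have hqs : ∀ v, 0 < q v → sg F w k v = j := fun v hv => by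
    rw [hq] at hv
    exact ((cond_pos_iff hu0 _ _ v).1 hv).2
  rw [← hq]
  obtain ⟨G, hG⟩ : ∃ G, G = prj F w k hk K j hl := ⟨_, rfl⟩
  -- the variables
  obtain ⟨c, hc⟩ : ∃ c : F.Ω × Fin (2 ^ (J - w)) → (Fin m → ℤ), c = fun v => fl w (F.x v.1) :=
    ⟨_, rfl⟩
  obtain ⟨W, hW⟩ : ∃ W : F.Ω × Fin (2 ^ (J - w)) → Fin (2 ^ (J - w)) × (κ × (ℕ × F.ζ)),
    W = fun v => (v.2, (K v.1, F.W v.1)) := ⟨_, rfl⟩
  obtain ⟨X, hX⟩ : ∃ X : F.Ω × Fin (2 ^ (J - w)) → (Fin m → ℤ), X = fun v => F.X J v.1 :=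
    ⟨_, rfl⟩
  obtain ⟨X₁, hX₁⟩ : ∃ X : F.Ω × Fin (2 ^ (J - w)) → (Fin m → ℤ), X = fun v =>
    fl J (xT F w v) := ⟨_, rfl⟩
  obtain ⟨D, hD⟩ : ∃ D : F.Ω × Fin (2 ^ (J - w)) → (Fin m → ℤ), D = fun v =>
    fl (J - w) (fun i => Int.fract (2 ^ w * F.x v.1 i)) := ⟨_, rfl⟩
  obtain ⟨X', hX'⟩ : ∃ X' : F.Ω × Fin (2 ^ (J - w)) → (Fin m → ℤ), X' = fun v =>
    fl (J - w) ((prj F w k hk K j hl).x v) := ⟨_, rfl⟩
  obtain ⟨Z, hZ⟩ : ∃ Z : F.Ω × Fin (2 ^ (J - w)) → (κ × (ℕ × F.ζ)) × (Fin m → ℤ),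
    Z = fun v => ((K v.1, F.W v.1), fl w (F.x v.1)) := ⟨_, rfl⟩
  obtain ⟨i', hi'⟩ : ∃ i' : F.Ω × Fin (2 ^ (J - w)) → ℤ, i' = fun v => ((v.2 : ℕ) : ℤ) :=
    ⟨_, rfl⟩
  rw [← hW, ← hX, ← hX₁]
  -- the inequality for the new family
  have hV' : CH q D Z ≤ CH q X' (fun v => (nt F w k v, Z v)) + V := by
    have e1 : (prj F w k hk K j hl).V (J - w) =
        CH q D Z - CH q X' (fun v => (nt F w k v, Z v)) -
          m * ((((J - w : ℕ) : ℝ) - ((J - w : ℕ) : ℝ)) * Real.log 2) := by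
      rw [hq, hD, hX', hZ]
      rfl
    rw [e1, sub_self, zero_mul, mul_zero, sub_zero] at hV
    linarith
  -- step 1
  have s1 : CH q X W ≤ CH q c W + CH q D Z := by
    have t1 := CH_le_add hq0 X c W
    have t2 : CH q X (fun v => (c v, W v)) ≤ CH q D (fun v => (c v, W v)) := by
      refine CH_mono_left hq0 fun v v' _ _ e => ?_
      have e1 := Prod.ext_iff.1 e
      have e2 := (Prod.ext_iff.1 e1.2).1
      have e3 : D v = D v' := e1.1
      have e4 : c v = c v' := e2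
      rw [hX]
      funext i
      change fl J (F.x v.1) i = fl J (F.x v'.1) i
      rw [fl_split hw, fl_split hw]
      have e5 := congrFun e3 i
      have e6 := congrFun e4 i
      rw [hD] at e5
      rw [hc] at e6
      simp only at e5 e6
      rw [e5, e6]
    have t3 : CH q D (fun v => (c v, W v)) ≤ CH q D Z := by
      refine CH_mono_cond hq0 fun v v' _ _ e => ?_
      have e1 := Prod.ext_iff.1 e
      rw [hZ]
      rw [hc, hW] at e1
      exact Prod.ext (Prod.ext_iff.1 e1.2).2 e1.1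
    linarith
  -- step 3
  have s3 : CH q X' (fun v => (nt F w k v, Z v)) ≤ Real.log (2 * 2 ^ k + 1) +
      CH q X' (fun v => (i' v, (nt F w k v, Z v))) := by
    have t1 := CH_le_add hq0 X' i' (fun v => (nt F w k v, Z v))
    have t2 : CH q i' (fun v => (nt F w k v, Z v)) ≤ Real.log (2 * 2 ^ k + 1) := by
      refine (CH_le_int hq0 hql.sum_one i' _ (fun _ => 2 ^ k) ?_).trans (le_of_eq ?_)
      · intro v v' hv hv' e
        have e1 := Prod.ext_iff.1 e
        have e2 : F.T v.1 = F.T v'.1 := by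
          have e3 := e1.2
          rw [hZ] at e3
          have e4 := (Prod.ext_iff.1 (Prod.ext_iff.1 (Prod.ext_iff.1 e3).1).2).1
          exact e4
        have e5 := nt_near F hk hj (hqs v hv) (hqs v' hv') e1.1
        have e6 : i' v - i' v' = rr F w v - rr F w v' := by
          rw [hi', rr_eq, rr_eq, e2]
          ring
        rw [e6]
        exact e5
      · rw [Ex_const hql.sum_one]
    linarith
  -- the difference of the times is a function of the conditions
  have hrr : ∀ v v', i' v = i' v' → F.T v.1 = F.T v'.1 → rr F w v = rr F w v' := by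
    intro v v' h1 h2
    rw [hi'] at h1
    rw [rr_eq, rr_eq, h2]
    simp only at h1
    rw [h1]
  have hJ : (2 : ℝ) ^ J = 2 ^ (J - w) * 2 ^ w := by
    rw [← pow_add]
    congr 1
    omega
  have hN0 : (0 : ℝ) < 2 ^ (J - w) := by positivity
  -- equal positions at the new time
  have hX1n : ∀ v v' i, X₁ v = X₁ v' →
      2 ^ (J - w) * |2 ^ w * xT F w v i - 2 ^ w * xT F w v' i| ≤ 1 := by
    intro v v' i h
    rw [hX₁] at h
    have h1 := congrFun h i
    have h2 : |(2 : ℝ) ^ J * xT F w v i - 2 ^ J * xT F w v' i| ≤ 1 := floor_same h1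
    have h3 : (2 : ℝ) ^ J * xT F w v i - 2 ^ J * xT F w v' i =
        2 ^ (J - w) * (2 ^ w * xT F w v i - 2 ^ w * xT F w v' i) := by
      rw [hJ]
      ring
    rw [h3, abs_mul, abs_of_pos hN0] at h2
    exact h2
  -- step 4
  have s4 : CH q X' (fun v => (i' v, (nt F w k v, Z v))) ≤
      CH q X₁ (fun v => (c v, W v)) + m * Real.log 7 := by
    have t1 := CH_le_add hq0 X' X₁ (fun v => (i' v, (nt F w k v, Z v)))
    have t2 : CH q X₁ (fun v => (i' v, (nt F w k v, Z v))) ≤ CH q X₁ (fun v => (c v, W v)) := by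
      refine CH_mono_cond hq0 fun v v' _ _ e => ?_
      have e1 := Prod.ext_iff.1 e
      have e2 := (Prod.ext_iff.1 e1.2).2
      rw [hZ] at e2
      have e3 := Prod.ext_iff.1 e2
      have e4 : i' v = i' v' := e1.1
      have e4' : ((v.2 : ℕ) : ℤ) = ((v'.2 : ℕ) : ℤ) := by
        rw [hi'] at e4
        exact e4
      have e5 : v.2 = v'.2 := Fin.ext (by exact_mod_cast e4')
      rw [hc, hW]
      exact Prod.ext e3.2 (Prod.ext e5 e3.1)
    have t3 : CH q X' (fun v => (X₁ v, (i' v, (nt F w k v, Z v)))) ≤ m * Real.log 7 := by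
      refine (CH_le_vec hq0 hql.sum_one X' _ (fun _ => 3) ?_).trans (le_of_eq ?_)
      · intro v v' hv hv' e i
        have e1 := Prod.ext_iff.1 e
        have e2 := Prod.ext_iff.1 e1.2
        have e3 := Prod.ext_iff.1 e2.2
        have e4 := e3.2
        rw [hZ] at e4
        have e5 := Prod.ext_iff.1 e4
        have e6 : F.T v.1 = F.T v'.1 := (Prod.ext_iff.1 (Prod.ext_iff.1 e5.1).2).1
        have e7 := hrr v v' e2.1 e6
        have e8 : fl w (F.x v.1) = fl w (F.x v'.1) := e5.2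
        have a1 := prj_x F hw hk K hl hj v (hqs v hv) i
        have a2 := prj_x F hw hk K hl hj v' (hqs v' hv') i
        have a3 := hX1n v v' i e1.1
        obtain ⟨-, b1, -⟩ := sg_cases F w k v (hqs v hv) hj
        rw [← e7, ← e8] at a2
        have b2 : ((2 : ℝ) ^ (J - w - k)) < ((|rr F w v| : ℤ) : ℝ) := by
          have : (((2 : ℤ) ^ (J - w - k) : ℤ) : ℝ) < ((|rr F w v| : ℤ) : ℝ) := by
            exact_mod_cast b1
          push_cast at this ⊢
          exact this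
        have b3 : (0 : ℝ) < 2 ^ (J - w - k) := by positivity
        obtain ⟨a, ha⟩ : ∃ a : ℝ, a = ((|rr F w v| : ℤ) : ℝ) := ⟨_, rfl⟩
        rw [← ha] at a1 a2 b2
        have ha0 : 0 < a := b3.trans b2
        obtain ⟨φ, hφ⟩ : ∃ φ : ℝ, φ = 2 ^ (J - w - k) / a := ⟨_, rfl⟩
        have hφ0 : 0 ≤ φ := by rw [hφ]; positivity
        have hφ1 : φ ≤ 1 := by rw [hφ, div_le_one ha0]; exact b2.le
        rw [← hφ] at a1 a2
        obtain ⟨f, hf⟩ : ∃ f : ℝ, f = Int.fract ((2 : ℝ) ^ (2 * (J - w) - k) / a) := ⟨_, rfl⟩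
        rw [← hf] at a1 a2
        have hf0 : 0 ≤ f := by rw [hf]; exact Int.fract_nonneg _
        have hf1 : f ≤ 1 := by rw [hf]; exact (Int.fract_lt_one _).le
        have c1 := Int.fract_nonneg ((2 : ℝ) ^ w * F.x v.1 i)
        have c2 := (Int.fract_lt_one ((2 : ℝ) ^ w * F.x v.1 i)).le
        have c3 := Int.fract_nonneg ((2 : ℝ) ^ w * F.x v'.1 i)
        have c4 := (Int.fract_lt_one ((2 : ℝ) ^ w * F.x v'.1 i)).le
        obtain ⟨x1, hx1⟩ : ∃ x : ℝ, x = Int.fract ((2 : ℝ) ^ w * F.x v.1 i) := ⟨_, rfl⟩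
        obtain ⟨x2, hx2⟩ : ∃ x : ℝ, x = Int.fract ((2 : ℝ) ^ w * F.x v'.1 i) := ⟨_, rfl⟩
        rw [← hx1] at a1 c1 c2
        rw [← hx2] at a2 c3 c4
        have d1 := abs_nonpos_iff.1 a1
        have d2 := abs_nonpos_iff.1 a2
        have key : |2 ^ (J - w) * (prj F w k hk K j hl).x v i -
            2 ^ (J - w) * (prj F w k hk K j hl).x v' i| ≤ 2 := by
          have g1 : 2 ^ (J - w) * (prj F w k hk K j hl).x v i -
              2 ^ (J - w) * (prj F w k hk K j hl).x v' i =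
              φ * (2 ^ (J - w) * (2 ^ w * xT F w v i - 2 ^ w * xT F w v' i)) -
                f * (x1 - x2) := by linarith
          rw [g1]
          refine (abs_sub _ _).trans ?_
          rw [abs_mul, abs_mul, abs_mul, abs_of_nonneg hφ0, abs_of_nonneg hf0, abs_of_pos hN0]
          have g2 : |x1 - x2| ≤ 1 := by
            rw [abs_le]
            constructor <;> linarith
          have g3 : φ * (2 ^ (J - w) * |2 ^ w * xT F w v i - 2 ^ w * xT F w v' i|) ≤ 1 * 1 :=
            mul_le_mul hφ1 a3 (by positivity) zero_le_one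
          have g4 : f * |x1 - x2| ≤ 1 * 1 := mul_le_mul hf1 g2 (abs_nonneg _) zero_le_one
          linarith
        have := floor_two key
        rw [hX']
        exact this.trans (by norm_num)
      · rw [Ex_const hql.sum_one]
        norm_num
    linarith
  -- step 5
  have s5 : CH q c W + CH q X₁ (fun v => (c v, W v)) ≤ CH q X₁ W + m * Real.log 9 := by
    have t1 := CH_chain hq0 X₁ c W
    have t2 := CH_chain hq0 c X₁ W
    have t3 : CH q (fun v => (X₁ v, c v)) W = CH q (fun v => (c v, X₁ v)) W :=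
      Pool.MIC.CH_swl hq0 X₁ c W
    have t4 : CH q c (fun v => (X₁ v, W v)) ≤ m * Real.log 9 := by
      refine (CH_le_vec hq0 hql.sum_one c _ (fun _ => 4) ?_).trans (le_of_eq ?_)
      · intro v v' hv hv' e i
        have e1 := Prod.ext_iff.1 e
        have e2 := e1.2
        rw [hW] at e2
        have e3 := Prod.ext_iff.1 e2
        have e4 : v.2 = v'.2 := e3.1
        have e5 : F.T v.1 = F.T v'.1 := (Prod.ext_iff.1 (Prod.ext_iff.1 e3.2).2).1
        have e6 : rr F w v = rr F w v' := by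
          refine hrr v v' ?_ e5
          rw [hi']
          simp only [e4]
        have a3 := hX1n v v' i e1.1
        have hxT : ∀ v : F.Ω × Fin (2 ^ (J - w)), 2 ^ w * F.x v.1 i =
            2 ^ w * xT F w v i - (rr F w v : ℝ) / 2 ^ (J - w) * F.d v.1 i := by
          intro v
          have e1 : ((rr F w v : ℤ) : ℝ) = (tau F w v : ℝ) - F.T v.1 := by
            unfold rr
            push_cast
            ring
          rw [e1]
          unfold xT Fam.x Fam.t
          rw [hJ]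
          field_simp
          ring
        have b1 : |((rr F w v : ℤ) : ℝ) / 2 ^ (J - w)| ≤ 1 := by
          rw [abs_div, abs_of_pos hN0, div_le_one hN0]
          have h4 := (rr_abs F w v).le
          have : ((|rr F w v| : ℤ) : ℝ) ≤ (((2 : ℤ) ^ (J - w) : ℤ) : ℝ) := by exact_mod_cast h4
          push_cast at this
          exact this
        have b2 := F.dir v.1 i
        have b3 := F.dir v'.1 i
        have b4 : |F.d v.1 i - F.d v'.1 i| ≤ 2 := by
          rw [abs_le] at b2 b3 ⊢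
          constructor <;> linarith [b2.1, b2.2, b3.1, b3.2]
        have b5 : |2 ^ w * xT F w v i - 2 ^ w * xT F w v' i| ≤ 1 := by
          have h1 : (1 : ℝ) ≤ 2 ^ (J - w) := one_le_pow₀ (by norm_num)
          calc |2 ^ w * xT F w v i - 2 ^ w * xT F w v' i| ≤
                2 ^ (J - w) * |2 ^ w * xT F w v i - 2 ^ w * xT F w v' i| :=
                le_mul_of_one_le_left (abs_nonneg _) h1
            _ ≤ 1 := a3
        have key : |2 ^ w * F.x v.1 i - 2 ^ w * F.x v'.1 i| ≤ 3 := by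
          rw [hxT v, hxT v', ← e6]
          have g1 : 2 ^ w * xT F w v i - (rr F w v : ℝ) / 2 ^ (J - w) * F.d v.1 i -
              (2 ^ w * xT F w v' i - (rr F w v : ℝ) / 2 ^ (J - w) * F.d v'.1 i) =
              (2 ^ w * xT F w v i - 2 ^ w * xT F w v' i) -
                (rr F w v : ℝ) / 2 ^ (J - w) * (F.d v.1 i - F.d v'.1 i) := by ring
          rw [g1]
          refine (abs_sub _ _).trans ?_
          rw [abs_mul]
          have g2 : |((rr F w v : ℤ) : ℝ) / 2 ^ (J - w)| * |F.d v.1 i - F.d v'.1 i| ≤ 1 * 2 :=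
            mul_le_mul b1 b4 (abs_nonneg _) zero_le_one
          linarith
        have := floor_two key
        rw [hc]
        exact this.trans (by norm_num)
      · rw [Ex_const hql.sum_one]
        norm_num
    linarith
  linarith

end Pool.TWO
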