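import Pool.Agent.H99.FRT.TwoT

/-!
# Two times of one line: the assembly
-/

set_option autoImplicit false

namespace Pool.TWO

open Finset Real
open Pool.Agent.H49.Ent Pool.Agent.H32.Dense Pool.STK Pool.KA
open Pool.XF (uni uni_law uni_pos uni_marg CH_uni H_uni)

variable {m J : ℕ}

theorem law_cond' {Ω S : Type} [Fintype Ω] {p : Ω → ℝ} (hp : IsLaw p) (A : Ω → S) {a : S}
    (ha : 0 < law p A a) : IsLaw (cond p A a) :=
  ⟨cond_nonneg hp.nonneg A a, sum_cond p A ha.ne'⟩

theorem sg_mem (F : Fam m J) (w k : ℕ) (v : F.Ω × Fin (2 ^ (J - w))) :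
    sg F w k v ∈ ({0, 1, -1} : Finset ℤ) := by
  unfold sg
  split_ifs <;> simp

/-- The uniform time is uniform given the sample. -/
theorem CH_snd {Ω : Type} [Fintype Ω] {p : Ω → ℝ} (hp : IsLaw p) (N : ℕ) :
    CH (uni N p) (fun v => v.2) (fun v => v.1) = N * Real.log 2 := by
  unfold CH
  have h1 := H_uni hp N (fun ω => ω)
  have h2 : H (uni N p) (fun v => v.1) = H p (fun ω => ω) := (uni_marg N).H (fun ω => ω)
  have h3 : H (uni N p) (fun u => (u.2, (fun ω => ω) u.1)) =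
      H (uni N p) (fun u => (u.2, u.1)) := rfl
  rw [h3] at h1
  rw [h1, h2]
  ring

/-- The time of the new family is uniform given the line. -/
theorem prj_tm (F : Fam m J) {w k : ℕ} (hk : k ≤ J - w) {κ : Type} (K : F.Ω → κ)
    {j : ℤ} (hl : IsLaw (cond (uni (J - w) F.p) (sg F w k) j)) (hj : j ≠ 0) {π₀ θ : ℝ}
    (hπ : 0 < π₀) (hπl : π₀ ≤ law (uni (J - w) F.p) (sg F w k) j)
    (hN : Real.log 3 / π₀ + Real.log (2 * 2 ^ k + 1) ≤ θ * ((J - w : ℕ) : ℝ)) :
    (prj F w k hk K j hl).Tm (θ * ((J - w : ℕ) : ℝ)) := by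
  obtain ⟨U, hU⟩ : ∃ U, U = uni (J - w) F.p := ⟨_, rfl⟩
  have hUl : IsLaw U := by rw [hU]; exact uni_law F.isLaw _
  have hU0 := hUl.nonneg
  obtain ⟨q, hq⟩ : ∃ q, q = cond U (sg F w k) j := ⟨_, rfl⟩
  have hql : IsLaw q := by rw [hq, hU]; exact hl
  have hq0 := hql.nonneg
  have hqs : ∀ v, 0 < q v → sg F w k v = j := fun v hv => by
    rw [hq] at hv
    exact ((cond_pos_iff hU0 _ _ v).1 hv).2
  rw [← hU] at hπl
  -- the uniform time given the sample
  have s1 : π₀ * (((J - w : ℕ) : ℝ) * Real.log 2 - CH q (fun v => v.2) (fun v => v.1)) ≤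
      Real.log 3 := by
    have hmax : ∀ q' : F.Ω × Fin (2 ^ (J - w)) → ℝ, IsLaw q' →
        CH q' (fun v => v.2) (fun v => v.1) ≤ ((J - w : ℕ) : ℝ) * Real.log 2 := by
      intro q' hq'
      refine (CH_le_card hq'.nonneg hq'.sum_one (fun v : F.Ω × Fin (2 ^ (J - w)) => v.2)
        (fun v => v.1) (fun _ => univ) (fun _ _ => Finset.mem_univ _)).trans (le_of_eq ?_)
      rw [Ex_const hq'.sum_one, Finset.card_univ, Fintype.card_fin]
      push_cast
      rw [Real.log_pow]
    have hsg : CH U (sg F w k) (fun v => v.1) ≤ Real.log 3 := by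
      refine (CH_le_card hU0 hUl.sum_one (sg F w k) (fun v => v.1)
        (fun _ => ({0, 1, -1} : Finset ℤ)) (fun v _ => sg_mem F w k v)).trans (le_of_eq ?_)
      rw [Ex_const hUl.sum_one]
      congr 1
    have hfull : ((J - w : ℕ) : ℝ) * Real.log 2 - 0 ≤ CH U (fun v => v.2) (fun v => v.1) := by
      rw [hU, CH_snd F.isLaw, sub_zero]
    have h1 := cond_full hUl (A := sg F w k) (a := j) (lt_of_lt_of_le hπ hπl) hfull hsg
      (fun b hb => hmax _ (law_cond' hUl _ hb))
    rw [zero_add, ← hq] at h1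
    have h2 : 0 ≤ ((J - w : ℕ) : ℝ) * Real.log 2 - CH q (fun v => v.2) (fun v => v.1) :=
      sub_nonneg.2 (hmax q hql)
    exact (mul_le_mul_of_nonneg_right hπl h2).trans h1
  -- the new time
  have s2 : CH q (fun v => v.2) (fun v => v.1) ≤ CH q (nt F w k) (fun v => v.1) +
      Real.log (2 * 2 ^ k + 1) := by
    have t0 : CH q (fun v => v.2) (fun v => v.1) =
        CH q (fun v => ((v.2 : ℕ) : ℤ)) (fun v => v.1) := by
      refine CH_congr hq0 ?_ ?_ (fun _ _ _ _ h => h) (fun _ _ _ _ h => h)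
      · intro v v' _ _ e
        have e1 := (Prod.ext_iff.1 e).1
        simp only at e1
        simp only [e1]
      · intro v v' _ _ e
        have e1 : ((v.2 : ℕ) : ℤ) = ((v'.2 : ℕ) : ℤ) := (Prod.ext_iff.1 e).1
        exact Fin.ext (by exact_mod_cast e1)
    rw [t0]
    have t1 := CH_le_add hq0 (fun v : F.Ω × Fin (2 ^ (J - w)) => ((v.2 : ℕ) : ℤ)) (nt F w k)
      (fun v => v.1)
    have t2 : CH q (fun v => ((v.2 : ℕ) : ℤ)) (fun v => (nt F w k v, v.1)) ≤
        Real.log (2 * 2 ^ k + 1) := by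
      refine (CH_le_int hq0 hql.sum_one _ _ (fun _ => 2 ^ k) ?_).trans (le_of_eq ?_)
      · intro v v' hv hv' e
        have e1 := Prod.ext_iff.1 e
        have e2 : v.1 = v'.1 := e1.2
        have e5 := nt_near F hk hj (hqs v hv) (hqs v' hv') e1.1
        have e6 : ((v.2 : ℕ) : ℤ) - ((v'.2 : ℕ) : ℤ) = rr F w v - rr F w v' := by
          rw [rr_eq, rr_eq, e2]
          ring
        rw [e6]
        exact e5
      · rw [Ex_const hql.sum_one]
    linarith
  -- the line is a function of the sample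
  have s3 : CH q (nt F w k) (fun v => v.1) ≤
      CH q (prj F w k hk K j hl).T
        (fun v => ((prj F w k hk K j hl).l v, (prj F w k hk K j hl).Z v)) := by
    refine CH_mono_cond hq0 fun v v' _ _ e => ?_
    have e2 : v.1 = v'.1 := e
    have e3 : (prj F w k hk K j hl).l v = (prj F w k hk K j hl).l v' := by
      change ((fun i => (j : ℝ) * F.d v.1 i / 2 ^ k), (fun i => Int.fract (2 ^ w * F.x v.1 i))) =
        ((fun i => (j : ℝ) * F.d v'.1 i / 2 ^ k), (fun i => Int.fract (2 ^ w * F.x v'.1 i)))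
      rw [e2]
    have e4 : (prj F w k hk K j hl).Z v = (prj F w k hk K j hl).Z v' := by
      change ((K v.1, F.W v.1), fl w (F.x v.1)) = ((K v'.1, F.W v'.1), fl w (F.x v'.1))
      rw [e2]
    rw [e3, e4]
  have h3 : ((J - w : ℕ) : ℝ) * Real.log 2 - CH q (fun v => v.2) (fun v => v.1) ≤
      Real.log 3 / π₀ := by
    rw [le_div_iff₀ hπ]
    linarith
  have h4 : ((J - w : ℕ) : ℝ) * Real.log 2 - θ * ((J - w : ℕ) : ℝ) ≤
      CH q (prj F w k hk K j hl).T
        (fun v => ((prj F w k hk K j hl).l v, (prj F w k hk K j hl).Z v)) := by linarith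
  rw [hq, hU] at h4
  exact h4

/-- The difference of the times is small with small probability. -/
theorem sg_zero (F : Fam m J) {w k : ℕ} (hk : k ≤ J - w) :
    law (uni (J - w) F.p) (sg F w k) 0 ≤ 3 / 2 ^ k := by
  classical
  have hN : (0 : ℝ) < 2 ^ (J - w) := by positivity
  unfold law uni
  rw [Fintype.sum_prod_type]
  have hin : ∀ ω, (∑ i : Fin (2 ^ (J - w)), if sg F w k (ω, i) = 0 then
      F.p (ω, i).1 / 2 ^ (J - w) else 0) ≤ F.p ω * (3 / 2 ^ k) := by
    intro ω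
    rw [← Finset.sum_filter]
    change ∑ _a ∈ univ.filter (fun i : Fin (2 ^ (J - w)) => sg F w k (ω, i) = 0),
      F.p ω / 2 ^ (J - w) ≤ _
    rw [Finset.sum_const, nsmul_eq_mul]
    have hc : ((univ.filter fun i : Fin (2 ^ (J - w)) => sg F w k (ω, i) = 0).card : ℝ) ≤
        3 * 2 ^ (J - w - k) := by
      have h1 : ((univ.filter fun i : Fin (2 ^ (J - w)) => sg F w k (ω, i) = 0).image
          (fun i : Fin (2 ^ (J - w)) => ((i : ℕ) : ℤ))) ⊆
          Finset.Icc (((F.T ω % 2 ^ (J - w) : ℕ) : ℤ) - 2 ^ (J - w - k))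
            (((F.T ω % 2 ^ (J - w) : ℕ) : ℤ) + 2 ^ (J - w - k)) := by
        intro x hx
        rw [Finset.mem_image] at hx
        obtain ⟨i, hi, rfl⟩ := hx
        have h2 := (Finset.mem_filter.1 hi).2
        have h3 := rr_eq F w (ω, i)
        unfold sg at h2
        split_ifs at h2 with h4 h5
        · exact absurd h2 one_ne_zero
        · rw [h3] at h4 h5
          simp only at h4 h5
          rw [Finset.mem_Icc]
          constructor <;> linarith
      have h2 : (univ.filter fun i : Fin (2 ^ (J - w)) => sg F w k (ω, i) = 0).card ≤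
          (Finset.Icc (((F.T ω % 2 ^ (J - w) : ℕ) : ℤ) - 2 ^ (J - w - k))
            (((F.T ω % 2 ^ (J - w) : ℕ) : ℤ) + 2 ^ (J - w - k))).card := by
        rw [← Finset.card_image_of_injective (univ.filter fun i : Fin (2 ^ (J - w)) =>
          sg F w k (ω, i) = 0) (f := fun i : Fin (2 ^ (J - w)) => ((i : ℕ) : ℤ)) (by
            intro a b hab
            simp only [Nat.cast_inj] at hab
            exact Fin.ext hab)]
        exact Finset.card_le_card h1
      have h3 : (Finset.Icc (((F.T ω % 2 ^ (J - w) : ℕ) : ℤ) - 2 ^ (J - w - k))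
            (((F.T ω % 2 ^ (J - w) : ℕ) : ℤ) + 2 ^ (J - w - k))).card =
          2 * 2 ^ (J - w - k) + 1 := by
        rw [Int.card_Icc]
        have : (((F.T ω % 2 ^ (J - w) : ℕ) : ℤ) + 2 ^ (J - w - k) + 1 -
            (((F.T ω % 2 ^ (J - w) : ℕ) : ℤ) - 2 ^ (J - w - k))) =
            ((2 * 2 ^ (J - w - k) + 1 : ℕ) : ℤ) := by
          push_cast
          ring
        rw [this, Int.toNat_natCast]
      rw [h3] at h2
      have h4 : (1 : ℝ) ≤ 2 ^ (J - w - k) := one_le_pow₀ (by norm_num)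
      calc ((univ.filter fun i : Fin (2 ^ (J - w)) => sg F w k (ω, i) = 0).card : ℝ) ≤
            ((2 * 2 ^ (J - w - k) + 1 : ℕ) : ℝ) := by exact_mod_cast h2
        _ = 2 * 2 ^ (J - w - k) + 1 := by push_cast; ring
        _ ≤ 3 * 2 ^ (J - w - k) := by linarith
    have hp0 := F.isLaw.nonneg ω
    have h5 : (2 : ℝ) ^ (J - w) = 2 ^ (J - w - k) * 2 ^ k := by
      rw [← pow_add]
      congr 1
      omega
    have h6 : (0 : ℝ) < 2 ^ (J - w - k) := by positivity
    have h7 : (0 : ℝ) < 2 ^ k := by positivity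
    calc ((univ.filter fun i : Fin (2 ^ (J - w)) => sg F w k (ω, i) = 0).card : ℝ) *
          (F.p ω / 2 ^ (J - w)) ≤ 3 * 2 ^ (J - w - k) * (F.p ω / 2 ^ (J - w)) :=
          mul_le_mul_of_nonneg_right hc (by positivity)
      _ = F.p ω * (3 / 2 ^ k) := by
          rw [h5]
          field_simp
  refine (Finset.sum_le_sum (g := fun ω => F.p ω * (3 / 2 ^ k)) fun ω _ => ?_).trans
    (le_of_eq ?_)
  · refine (le_of_eq ?_).trans (hin ω)
    refine Finset.sum_congr rfl fun i _ => ?_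
    congr
  · rw [← Finset.sum_mul, F.isLaw.sum_one, one_mul]

/-- The trivial bound. -/
theorem triv (F : Fam m J) {w : ℕ} {κ : Type} (K : F.Ω → κ)
    {q : F.Ω × Fin (2 ^ (J - w)) → ℝ} (hql : IsLaw q) :
    CH q (fun v => F.X J v.1) (fun v => (v.2, (K v.1, F.W v.1))) ≤
    CH q (fun v => fl J (xT F w v)) (fun v => (v.2, (K v.1, F.W v.1))) +
      m * ((((J - w : ℕ) : ℝ) + 4) * Real.log 2) := by
  have hq0 := hql.nonneg
  obtain ⟨W, hW⟩ : ∃ W : F.Ω × Fin (2 ^ (J - w)) → Fin (2 ^ (J - w)) × (κ × (ℕ × F.ζ)),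
    W = fun v => (v.2, (K v.1, F.W v.1)) := ⟨_, rfl⟩
  rw [← hW]
  obtain ⟨X₁, hX₁⟩ : ∃ X : F.Ω × Fin (2 ^ (J - w)) → (Fin m → ℤ), X = fun v =>
    fl J (xT F w v) := ⟨_, rfl⟩
  rw [← hX₁]
  have hJ0 : (0 : ℝ) < 2 ^ J := by positivity
  have hxx : ∀ (v : F.Ω × Fin (2 ^ (J - w))) (i : Fin m),
      |2 ^ J * F.x v.1 i - 2 ^ J * xT F w v i| ≤ 2 ^ (J - w) := by
    intro v i
    have e1 : ((rr F w v : ℤ) : ℝ) = (tau F w v : ℝ) - F.T v.1 := by
      unfold rr
      push_cast
      ring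
    have e2 : 2 ^ J * F.x v.1 i - 2 ^ J * xT F w v i = -((rr F w v : ℤ) : ℝ) * F.d v.1 i := by
      rw [e1]
      unfold xT Fam.x Fam.t
      field_simp
      ring
    rw [e2, abs_mul, abs_neg]
    have h1 : |((rr F w v : ℤ) : ℝ)| ≤ 2 ^ (J - w) := by
      have h4 := (rr_abs F w v).le
      have : ((|rr F w v| : ℤ) : ℝ) ≤ (((2 : ℤ) ^ (J - w) : ℤ) : ℝ) := by exact_mod_cast h4
      push_cast at this
      exact this
    calc |((rr F w v : ℤ) : ℝ)| * |F.d v.1 i| ≤ 2 ^ (J - w) * 1 :=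
          mul_le_mul h1 (F.dir v.1 i) (abs_nonneg _) (by positivity)
      _ = 2 ^ (J - w) := mul_one _
  have t1 := CH_le_add hq0 (fun v => F.X J v.1) X₁ W
  have t2 : CH q (fun v => F.X J v.1) (fun v => (X₁ v, W v)) ≤
      m * ((((J - w : ℕ) : ℝ) + 4) * Real.log 2) := by
    have hL : Real.log (2 * (2 * 2 ^ (J - w) + 2) + 1) ≤ (((J - w : ℕ) : ℝ) + 4) * Real.log 2 := by
      have h1 : (1 : ℝ) ≤ 2 ^ (J - w) := one_le_pow₀ (by norm_num)
      calc Real.log (2 * (2 * 2 ^ (J - w) + 2) + 1) ≤ Real.log (2 ^ (J - w + 4)) := by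
            apply Real.log_le_log (by positivity)
            rw [pow_add]
            linarith
        _ = (((J - w : ℕ) : ℝ) + 4) * Real.log 2 := by
            rw [Real.log_pow]
            push_cast
            ring
    refine (CH_le_vec hq0 hql.sum_one (fun v => F.X J v.1) _ (fun _ => 2 * 2 ^ (J - w) + 2)
      ?_).trans ?_
    · intro v v' _ _ e i
      have e1 : X₁ v = X₁ v' := (Prod.ext_iff.1 e).1
      rw [hX₁] at e1
      have e2 : |(2 : ℝ) ^ J * xT F w v i - 2 ^ J * xT F w v' i| ≤ 1 :=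
        floor_same (congrFun e1 i)
      have e3 := hxx v i
      have e4 := hxx v' i
      have e5 : |2 ^ J * F.x v.1 i - 2 ^ J * F.x v'.1 i| ≤ 2 * 2 ^ (J - w) + 1 := by
        rw [abs_le] at e2 e3 e4 ⊢
        constructor <;> linarith [e2.1, e2.2, e3.1, e3.2, e4.1, e4.2]
      have e6 := floor_two e5
      refine e6.trans (le_of_eq ?_)
      ring
    · rw [Ex_const hql.sum_one]
      exact mul_le_mul_of_nonneg_left hL (Nat.cast_nonneg _)
  linarith

/-- **Two times of one line.** The position at the own time has at most the entropy of the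
position at a uniform time of the window of the own time. -/
theorem two_time (h : KP m) : ∀ ε > 0, ∃ J₀ : ℕ, ∀ J ≥ J₀, ∀ F : Fam m J, ∀ w ≤ J,
    ∀ (κ : Type) (K : F.Ω → κ), CH F.p (F.X J) (fun ω => (K ω, F.W ω)) ≤
      CH (uni (J - w) F.p) (fun v => fl J (xT F w v)) (fun v => (v.2, (K v.1, F.W v.1))) +
        ε * J := by
  intro ε hε
  have hl2 : 0 < Real.log 2 := Real.log_pos (by norm_num)
  have hl2' : Real.log 2 ≤ 1 := by
    have := Real.log_two_lt_d9
    linarith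
  -- the constants
  obtain ⟨k, hk⟩ : ∃ k : ℕ, 3 / 2 ^ k * (m + 1 : ℝ) ≤ ε / 8 := by
    obtain ⟨k, hk⟩ := pow_unbounded_of_one_lt (24 * (m + 1 : ℝ) / ε) (one_lt_two)
    refine ⟨k, ?_⟩
    have h1 : (0 : ℝ) < 2 ^ k := by positivity
    rw [div_lt_iff₀ hε] at hk
    rw [div_mul_eq_mul_div, div_le_iff₀ h1]
    nlinarith
  obtain ⟨π₀, hπ₀⟩ : ∃ π₀ : ℝ, π₀ = ε / (16 * (m + 1)) := ⟨_, rfl⟩
  have hm1 : (0 : ℝ) < m + 1 := by positivity
  have hπ : 0 < π₀ := by rw [hπ₀]; positivity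
  have hπm : 2 * π₀ * (m + 1) = ε / 8 := by
    rw [hπ₀]
    field_simp
    ring
  obtain ⟨θ, hθ, J₁, hJ₁⟩ := h (ε / 4) (by positivity)
  obtain ⟨C, hC⟩ : ∃ C : ℝ, C = Real.log 3 / π₀ + Real.log (2 * 2 ^ k + 1) := ⟨_, rfl⟩
  obtain ⟨D, hD⟩ : ∃ D : ℝ, D = Real.log (2 * 2 ^ k + 1) + (m * Real.log 7 + m * Real.log 9) :=
    ⟨_, rfl⟩
  have hC0 : 0 ≤ C := by
    rw [hC]
    have : 0 ≤ Real.log 3 := Real.log_nonneg (by norm_num)
    have : 0 ≤ Real.log (2 * 2 ^ k + 1) := Real.log_nonneg (by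
      have : (0 : ℝ) < 2 ^ k := by positivity
      linarith)
    positivity
  have hD0 : 0 ≤ D := by
    rw [hD]
    have h1 : 0 ≤ Real.log 7 := Real.log_nonneg (by norm_num)
    have h2 : 0 ≤ Real.log 9 := Real.log_nonneg (by norm_num)
    have : 0 ≤ Real.log (2 * 2 ^ k + 1) := Real.log_nonneg (by
      have : (0 : ℝ) < 2 ^ k := by positivity
      linarith)
    positivity
  obtain ⟨N₀, hN₀⟩ : ∃ N₀ : ℕ, N₀ = max J₁ (max k ⌈C / θ⌉₊) := ⟨_, rfl⟩
  refine ⟨max 1 (⌈(D + (3 / 2 ^ k + 2 * π₀) * (m * 4) + m * (N₀ + 4)) / (ε / 4)⌉₊),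
    fun J hJ F w hw κ K => ?_⟩
  have hJ1 : 1 ≤ J := le_trans (le_max_left _ _) hJ
  have hJb : (D + (3 / 2 ^ k + 2 * π₀) * (m * 4) + m * (N₀ + 4)) ≤ ε / 4 * J := by
    have h1 : (⌈(D + (3 / 2 ^ k + 2 * π₀) * (m * 4) + m * (N₀ + 4)) / (ε / 4)⌉₊ : ℝ) ≤ J := by
      exact_mod_cast le_trans (le_max_right _ _) hJ
    have h2 := (Nat.le_ceil _).trans h1
    rw [div_le_iff₀ (by positivity)] at h2
    linarith
  obtain ⟨U, hU⟩ : ∃ U, U = uni (J - w) F.p := ⟨_, rfl⟩
  have hUl : IsLaw U := by rw [hU]; exact uni_law F.isLaw _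
  have hU0 := hUl.nonneg
  obtain ⟨W, hW⟩ : ∃ W : F.Ω × Fin (2 ^ (J - w)) → Fin (2 ^ (J - w)) × (κ × (ℕ × F.ζ)),
    W = fun v => (v.2, (K v.1, F.W v.1)) := ⟨_, rfl⟩
  have e0 : CH F.p (F.X J) (fun ω => (K ω, F.W ω)) = CH U (fun v => F.X J v.1) W := by
    rw [hU, hW]
    exact (CH_uni F.isLaw (J - w) (F.X J) (fun ω => (K ω, F.W ω))).symm
  rw [e0, ← hU, ← hW]
  have hpos1 : (0 : ℝ) ≤ 3 / 2 ^ k := by positivity
  rcases lt_or_ge (J - w) N₀ with hN | hN
  · -- a short window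
    have h1 := triv F K hUl
    rw [← hW] at h1
    have h2 : ((J - w : ℕ) : ℝ) ≤ N₀ := by exact_mod_cast hN.le
    have h3 : (m : ℝ) * ((((J - w : ℕ) : ℝ) + 4) * Real.log 2) ≤ m * (N₀ + 4) := by
      refine mul_le_mul_of_nonneg_left ?_ (Nat.cast_nonneg _)
      have h5 : (0 : ℝ) ≤ ((J - w : ℕ) : ℝ) + 4 := by positivity
      nlinarith
    have h4 : 0 ≤ (3 / 2 ^ k + 2 * π₀) * ((m : ℝ) * 4) := by positivity
    have h5 : (0 : ℝ) ≤ ε / 4 * J := by positivity
    linarith
  · have hNk : k ≤ J - w := by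
      have : k ≤ N₀ := by rw [hN₀]; exact (le_max_left _ _).trans (le_max_right _ _)
      omega
    have hNJ : J₁ ≤ J - w := by
      have : J₁ ≤ N₀ := by rw [hN₀]; exact le_max_left _ _
      omega
    have hNC : C ≤ θ * ((J - w : ℕ) : ℝ) := by
      have h1 : ⌈C / θ⌉₊ ≤ N₀ := by rw [hN₀]; exact (le_max_right _ _).trans (le_max_right _ _)
      have h2 : (⌈C / θ⌉₊ : ℝ) ≤ ((J - w : ℕ) : ℝ) := by exact_mod_cast h1.trans hN
      have h3 := (Nat.le_ceil _).trans h2
      rw [div_le_iff₀ hθ] at h3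
      linarith
    obtain ⟨N, hNN⟩ : ∃ N : ℝ, N = ((J - w : ℕ) : ℝ) := ⟨_, rfl⟩
    have hN0 : 0 ≤ N := by rw [hNN]; positivity
    have hNJ' : N ≤ J := by
      rw [hNN]
      exact_mod_cast Nat.sub_le _ _
    -- condition on the sign
    have hsw : ∀ {S : Type} (X : F.Ω × Fin (2 ^ (J - w)) → S), CH U X W =
        CH U X (fun v => (W v, sg F w k v)) := by
      intro S X
      refine CH_congr hU0 (fun _ _ _ _ e => (Prod.ext_iff.1 e).1) (fun _ _ _ _ e =>
        (Prod.ext_iff.1 e).1) ?_ ?_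
      · intro v v' _ _ e
        refine Prod.ext e ?_
        rw [hW] at e
        have e1 := Prod.ext_iff.1 e
        have e2 : v.2 = v'.2 := e1.1
        have e3 : F.T v.1 = F.T v'.1 := (Prod.ext_iff.1 (Prod.ext_iff.1 e1.2).2).1
        have e4 : rr F w v = rr F w v' := by rw [rr_eq, rr_eq, e2, e3]
        change sg F w k v = sg F w k v'
        unfold sg
        rw [e4]
      · intro v v' _ _ e
        exact (Prod.ext_iff.1 e).1
    rw [hsw, hsw, CH_split hU0, CH_split hU0]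
    obtain ⟨E₁, hE₁⟩ : ∃ E : ℝ, E = ε / 4 * N + D := ⟨_, rfl⟩
    obtain ⟨E₂, hE₂⟩ : ∃ E : ℝ, E = m * ((N + 4) * Real.log 2) := ⟨_, rfl⟩
    have hE₁0 : 0 ≤ E₁ := by rw [hE₁]; positivity
    have hE₂0 : 0 ≤ E₂ := by rw [hE₂]; positivity
    obtain ⟨c, hc⟩ : ∃ c : ℤ → ℝ, c = fun j => if j = 0 then 3 / 2 ^ k else π₀ := ⟨_, rfl⟩
    have hc0 : ∀ j, 0 ≤ c j := fun j => by
      rw [hc]
      simp only
      split_ifs
      · exact hpos1
      · exact hπ.le
    have hone : ∀ j, law U (sg F w k) j * CH (cond U (sg F w k) j) (fun v => F.X J v.1) W ≤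
        law U (sg F w k) j * CH (cond U (sg F w k) j) (fun v => fl J (xT F w v)) W +
          (law U (sg F w k) j * E₁ + c j * E₂) := by
      intro j
      have hlj := law_nonneg hU0 (sg F w k) j
      rcases hlj.eq_or_lt with h0 | h0
      · rw [← h0]
        have := mul_nonneg (hc0 j) hE₂0
        linarith
      · have hlaw := law_cond' hUl (sg F w k) h0
        have ht := triv F K hlaw
        rw [← hW, ← hNN, ← hE₂] at ht
        by_cases hj : j = 0
        · have hc1 : law U (sg F w k) j ≤ c j := by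
            rw [hc, hj]
            simp only [if_true]
            rw [hU]
            exact sg_zero F hNk
          have h1 := mul_le_mul_of_nonneg_left ht hlj
          have h2 := mul_le_mul_of_nonneg_right hc1 hE₂0
          have h3 := mul_nonneg hlj hE₁0
          linarith
        · by_cases hjp : π₀ ≤ law U (sg F w k) j
          · have hlaw' : IsLaw (cond (uni (J - w) F.p) (sg F w k) j) := by
              rw [← hU]
              exact hlaw
            have htm := prj_tm F hNk K hlaw' hj hπ (by rw [← hU]; exact hjp)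
              (by rw [← hC]; exact hNC)
            have hv := hJ₁ (J - w) hNJ _ htm
            have h1 := two_core F hw hNk K hlaw' hj hv
            rw [← hU, ← hW, ← hNN, ← hD, ← hE₁] at h1
            have h2 := mul_le_mul_of_nonneg_left h1 hlj
            have h3 := mul_nonneg (hc0 j) hE₂0
            linarith
          · have hc1 : law U (sg F w k) j ≤ c j := by
              rw [hc]
              simp only [if_neg hj]
              exact (not_le.1 hjp).le
            have h1 := mul_le_mul_of_nonneg_left ht hlj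
            have h2 := mul_le_mul_of_nonneg_right hc1 hE₂0
            have h3 := mul_nonneg hlj hE₁0
            linarith
    have hsum := Finset.sum_le_sum (s := univ.image (sg F w k)) fun j _ => hone j
    rw [Finset.sum_add_distrib, Finset.sum_add_distrib, ← Finset.sum_mul, ← Finset.sum_mul] at hsum
    have hs1 : ∑ j ∈ univ.image (sg F w k), law U (sg F w k) j = 1 := by
      rw [sum_law, hUl.sum_one]
    have hs2 : ∑ j ∈ univ.image (sg F w k), c j ≤ 3 / 2 ^ k + 2 * π₀ := by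
      have h1 : univ.image (sg F w k) ⊆ ({0, 1, -1} : Finset ℤ) := by
        intro x hx
        obtain ⟨v, -, rfl⟩ := Finset.mem_image.1 hx
        exact sg_mem F w k v
      refine (Finset.sum_le_sum_of_subset_of_nonneg h1 fun j _ _ => hc0 j).trans (le_of_eq ?_)
      rw [Finset.sum_insert (by norm_num), Finset.sum_insert (by norm_num),
        Finset.sum_singleton, hc]
      norm_num
      ring
    rw [hs1, one_mul] at hsum
    have hs3 := mul_le_mul_of_nonneg_right hs2 hE₂0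
    have hE2' : (3 / 2 ^ k + 2 * π₀) * E₂ ≤ ε / 4 * N + (3 / 2 ^ k + 2 * π₀) * (m * 4) := by
      have h1 : E₂ ≤ m * N + m * 4 := by
        rw [hE₂]
        have : (N + 4) * Real.log 2 ≤ N + 4 := by nlinarith
        calc (m : ℝ) * ((N + 4) * Real.log 2) ≤ m * (N + 4) :=
              mul_le_mul_of_nonneg_left this (Nat.cast_nonneg _)
          _ = m * N + m * 4 := by ring
      have h2 : (3 / 2 ^ k + 2 * π₀) * (m : ℝ) ≤ ε / 4 := by
        have h3 : (3 / 2 ^ k + 2 * π₀) * (m + 1 : ℝ) ≤ ε / 4 := by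
          have : (3 / 2 ^ k + 2 * π₀) * (m + 1 : ℝ) = 3 / 2 ^ k * (m + 1) + 2 * π₀ * (m + 1) := by
            ring
          rw [this, hπm]
          linarith
        have h4 : 0 ≤ 3 / 2 ^ k + 2 * π₀ := by positivity
        nlinarith
      have h3 : 0 ≤ 3 / 2 ^ k + 2 * π₀ := by positivity
      calc (3 / 2 ^ k + 2 * π₀) * E₂ ≤ (3 / 2 ^ k + 2 * π₀) * (m * N + m * 4) :=
            mul_le_mul_of_nonneg_left h1 h3
        _ = ((3 / 2 ^ k + 2 * π₀) * m) * N + (3 / 2 ^ k + 2 * π₀) * (m * 4) := by ring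
        _ ≤ ε / 4 * N + (3 / 2 ^ k + 2 * π₀) * (m * 4) := by
            have := mul_le_mul_of_nonneg_right h2 hN0
            linarith
    have hm4 : (0 : ℝ) ≤ m * (N₀ + 4) := by positivity
    have hfin : ε / 4 * N ≤ ε / 4 * J := mul_le_mul_of_nonneg_left hNJ' (by positivity)
    rw [hE₁] at hsum
    have h9 : (0 : ℝ) ≤ ε / 4 * J := by positivity
    linarith

end Pool.TWO
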